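import Pool.Agent.H14.PD.Stmts

/-!
Project PD (MP_822040_al): assembly.
-/

set_option autoImplicit false

namespace Pool.Agent.H14.PD

instance {P Q : Type} [Finite P] [Finite Q] : Finite (Nd P Q) := by
  have : Function.Injective (fun n : Nd P Q => match n with
    | Nd.p a b => (Sum.inl (a, b) : (P × Bool) ⊕ (Q × Bool))
    | Nd.q a b => Sum.inr (a, b)) := by
    intro x y h
    cases x <;> cases y <;> simp_all
  exact Finite.of_injective _ this

/-- the Morse complex -/
noncomputable def xmc {P Q : Type} (Z : Sz P Q) (m : ℕ) (hm : 1 ≤ m)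
    (h1 : XIN) (h2 : XCM) (h3 : XSQ) (h4 : XCV) (h5 : XET) : Mc (Xv P Q) (Xs P Q) where
  cm := xcm Z
  lab := xlab Z
  act := xact Z
  inv := h1 P Q Z
  cm_symm := (h2 P Q Z).1
  cm_irr := (h2 P Q Z).2.1
  sq := h3 P Q Z
  cv := h4 P Q Z
  m := m
  m_pos := hm
  eta := xeta Z m
  big := xbig
  eta_inv := (h5 P Q Z m).1
  eta_sq := (h5 P Q Z m).2.1
  eta_big := (h5 P Q Z m).2.2.1
  eta_small := (h5 P Q Z m).2.2.2
  big_cm := (h2 P Q Z).2.2.1

/-- the sided complex -/
theorem asmX (h1 : XIN) (h2 : XCM) (h3 : XSQ) (h4 : XCV) (h5 : XET) (h6 : XLK) (h7 : XRA)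
    (h8 : XRB) (h9 : XCP) (h10 : XYS) (h11 : XVP) (h12 : XGR) {P Q : Type} (Z : Sz P Q) (mu : ℕ)
    (hmu : 1 ≤ mu) : ∃ M : Sd (Xv P Q) (Xs P Q), M.m = 24 * mu := by
  have hm : 1 ≤ 24 * mu := by omega
  have hv := fun r : ℕ => h11 P Q Z (24 * mu) (xmc Z (24 * mu) hm h1 h2 h3 h4 h5) rfl rfl rfl rfl
    rfl rfl r (r * (6 * mu)) (by ring)
  refine ⟨{ toMc := xmc Z (24 * mu) hm h1 h2 h3 h4 h5
            side := fun s => s.2.2.2
            cp := xcp Z
            Yv := xY Z
            sp := xsp Z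
            o := xo Z
            grid := h12 P Q Z
            lkup := fun x hx => (h6 P Q Z (24 * mu) hm x hx).1
            lkdn := fun x hx => (h6 P Q Z (24 * mu) hm x hx).2
            cp_small := (h9 P Q Z).1
            cp_big := (h9 P Q Z).2.1
            R1 := h7 P Q Z (24 * mu) hm
            R2 := h8 P Q Z (24 * mu) hm
            cp_o := (h9 P Q Z).2.2.1
            Y_o := (h9 P Q Z).2.2.2
            sp_big := fun s hs => hs.1
            sp_side := fun s hs => hs.2.2
            Y_small := (h10 P Q Z).1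
            Y_sp := (h10 P Q Z).2.1
            Y_bt := (h10 P Q Z).2.2
            vdn := fun r => (uwk Z Z.q0 (r * (6 * mu))).reverse
            vup := fun r => uwk Z Z.q0' (r * (6 * mu))
            v_small := fun r => (hv r).1
            v_rd := fun r => (hv r).2.1
            v_sl := fun r => (hv r).2.2.1
            v_bot := fun r => (hv r).2.2.2.1
            v_end := fun r => (hv r).2.2.2.2.1
            v_len := fun r => (hv r).2.2.2.2.2 }, rfl⟩

theorem asmF (h1 : XIN) (h2 : XCM) (h3 : XSQ) (h4 : XCV) (h5 : XET) (h6 : XLK) (h7 : XRA)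
    (h8 : XRB) (h9 : XCP) (h10 : XYS) (h11 : XVP) (h12 : XGR) (h13 : SZB) (h14 : NUM) (h15 : FIN) :
    ∀ d, Goal d := by
  intro d
  obtain ⟨mu, C, hmu, hn⟩ := h14 d
  obtain ⟨Z⟩ := h13
  obtain ⟨M, hM⟩ := asmX h1 h2 h3 h4 h5 h6 h7 h8 h9 h10 h11 h12 Z mu hmu
  exact h15 d mu C hmu hn _ _ M hM

/-- everything -/
theorem asm (prb : PRB) (tqb : TQB) (rdb : RDB) (rdt : RDT) (m_rem : M_REM) (m_vdw : M_VDW)
    (m_lev : M_LEV) (m_mee : M_MEE) (m_len : M_LEN) (trb : TRB) (m_trc : M_TRC) (m_thn : M_THN)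
    (m_loc : M_LOC) (m_deh : M_DEH) (m_log : M_LOG) (arc : ARC) (m_tau : M_TAU) (m_phi : M_PHI)
    (m_prr : M_PRR) (m_dea : M_DEA) (m_amb : M_AMB) (m_slp : M_SLP) (m_qsw : M_QSW) (ssq : SSQ)
    (m_tri : M_TRI) (m_coc : M_COC) (m_ret : M_RET) (m_rtb : M_RTB) (m_flp : M_FLP)
    (m_del : M_DEL) (m_big : M_BIG) (m_slb : M_SLB) (m_sln : M_SLN) (m_slk : M_SLK)
    (m_not : M_NOT) (m_rai : M_RAI) (m_alp : M_ALP) (der : DER) (deb : DEB) (m_psb : M_PSB)
    (m_pss : M_PSS) (m_lip : M_LIP) (m_dst : M_DST) (m_pot : M_POT) (m_ewd : M_EWD)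
    (m_ebd : M_EBD) (m_low : M_LOW) (tfa : TFA) (m_tfb : M_TFB) (fia : FIA) (m_fib : M_FIB)
    (m_tht : M_THT) (num : NUM) (m_fnl : M_FNL) (m_fin : M_FIN) (xin : XIN) (xcm' : XCM)
    (m_xsq : M_XSQ) (xcv : XCV) (xet : XET) (xpa : XPA) (xex : XEX) (m_xlk : M_XLK)
    (m_xra : M_XRA) (m_xrb : M_XRB) (xcp' : XCP) (xys : XYS) (m_xvp : M_XVP) (xco : XCO)
    (m_xga : M_XGA) (m_xgp : M_XGP) (m_xgb : M_XGB) (m_xgr : M_XGR) (szb : SZB) :
    ∀ d, Goal d := by
  have rem := m_rem tqb
  have vdw := m_vdw prb tqb rdb rdt rem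
  have lev := m_lev tqb rem
  have mee := m_mee tqb rdb rdt
  have len := m_len prb tqb rdb vdw
  have trc := m_trc prb tqb rdb rdt vdw trb
  have thn := m_thn prb tqb rdb rdt vdw lev mee len trb trc
  have loc := m_loc prb tqb rdb len trb trc thn
  have deh := m_deh rdb loc
  have log := m_log prb tqb rdb rdt len trb trc thn
  have tau := m_tau trb
  have phi := m_phi prb trb tau
  have prr := m_prr prb trb arc tau phi
  have dea := m_dea trb arc tau
  have amb := m_amb prb trb trc deh arc tau phi prr dea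
  have slp := m_slp trb
  have qsw := m_qsw trb
  have tri := m_tri qsw ssq
  have coc := m_coc qsw ssq tri
  have ret := m_ret qsw ssq coc
  have rtb := m_rtb ret
  have flp := m_flp rtb
  have del := m_del trb qsw ssq
  have big := m_big prb tqb rdb vdw trb trc slp del
  have slb := m_slb trb slp rtb flp big
  have sln := m_sln trb tau
  have slk := m_slk trb slp arc tau phi prr slb sln
  have not' := m_not prb trb
  have rai := m_rai prb trb not'
  have alp := m_alp trb trc slp rai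
  have psb := m_psb prb trb
  have pss := m_pss prb
  have lip := m_lip prb trb trc slp
  have dst := m_dst prb trb rdb len trc log slp
  have pot := m_pot prb trb slp lip psb
  have ewd := m_ewd prb trb tau slp der psb
  have ebd := m_ebd prb trb tau phi slp qsw psb pss lip
  have low := m_low prb trb trc tau phi slp deb psb pot ewd ebd
  have tfb := m_tfb tfa
  have fib := m_fib trb tau slp
  have tht := m_tht prb trb tau phi slp
  have fnl := m_fnl prb trb trc tau phi slp alp lip dst low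
  have fin := m_fin arc tau phi amb slk tfb fia fib tht fnl
  have xsq := m_xsq xin
  have xlk := m_xlk xcm' xpa xex
  have xra := m_xra xcm' xpa xex
  have xrb := m_xrb xcm' xpa xex
  have xvp := m_xvp trb xcm' xin slp
  have xga := m_xga trb rdb xcm' xco
  have xgp := m_xgp trb rdb xcm' xco
  have xgb := m_xgb trb rdb xcm' xco xgp
  have xgr := m_xgr xcm' xga xgb
  exact asmF xin xcm' xsq xcv xet xlk xra xrb xcp' xys xvp xgr szb num fin

end Pool.Agent.H14.PD
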