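import Pool.Agent.H14.PD.Stmts

/-!
Project PD: DEA.
-/

set_option autoImplicit false

namespace Pool.Agent.H14.PD

theorem pd_dea : M_DEA := by
  intro trb arc tau Y S C y0 y s u
  obtain ⟨A0, Am, Ar1, Amul, Acj, Ainv, -⟩ := arc (Y × S) (C.rel y0)
  have T := tau Y S C.toSq y0
  have hback : ∀ z t, C.Rc y0 z → C.lab z t →
      Ar (C.rel y0) 1 (FreeGroup.of (z, t) * FreeGroup.of (C.act z t, t)) := by
    intro z t hz hl
    have := Ar1 (wd C.act z [t, t]) (Or.inr (Or.inl ⟨z, t, hz, hl, rfl⟩))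
    simpa [wd] using this
  induction u generalizing y with
  | nil =>
    intro hy _ htr
    have := hback y s hy htr.1
    simpa [wd] using this
  | cons t u ih =>
    intro hy hu htr
    have hst : C.cm s t := hu t List.mem_cons_self
    have l1 : C.lab y s := htr.1
    have l2 : C.lab (C.act y s) t := htr.2.1
    have l3 : C.lab y t := C.cv y s t hst l1 l2
    obtain ⟨-, sq1⟩ := C.sq y s t hst l1 l3
    obtain ⟨sq2, -⟩ := C.sq y t s (C.cm_symm _ _ hst) l3 l1
    have hRt : C.Rc y0 (C.act y t) := T.2.2.2.2.1 y [t] hy ⟨l3, trivial⟩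
    have hRts : C.Rc y0 (C.act (C.act y t) s) := T.2.2.2.2.1 _ [s] hRt ⟨sq2, trivial⟩
    have htr' : Tr C.lab C.act (C.act y t) (s :: (u ++ [s])) := by
      refine ⟨sq2, ?_⟩
      rw [← sq1]
      exact htr.2.2
    have ih' := ih (C.act y t) hRt (fun x hx => hu x (List.mem_cons_of_mem _ hx)) htr'
    -- the square
    obtain ⟨i1, i2⟩ := C.inv (C.act y t) s sq2
    obtain ⟨j1, j2⟩ := C.inv y t l3
    have hsq : Ar (C.rel y0) 1 (wd C.act y [s, t, s, t]) := by
      refine Ar1 _ (Or.inr (Or.inr (Or.inl ⟨y, s, t, hy, hst, ⟨l1, l2, ?_, ?_, trivial⟩, ?_, rfl⟩)))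
      · rw [sq1]; exact i1
      · rw [sq1, i2]; exact j1
      · simp only [en]; rw [sq1, i2, j2]
    simp only [wd, mul_one] at hsq
    rw [sq1, i2] at hsq
    -- of (y,s) of (ys,t) of(yst,s) of (yt,t)
    have b1 := hback (C.act (C.act y t) s) s hRts i1
    rw [i2] at b1
    have b2 := hback (C.act y t) t hRt j1
    rw [j2] at b2
    have hsw : Ar (C.rel y0) 3 (FreeGroup.of (y, s) * FreeGroup.of (C.act y s, t) *
        (FreeGroup.of (y, t) * FreeGroup.of (C.act y t, s))⁻¹) := by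
      generalize FreeGroup.of (y, s) = a at *
      generalize FreeGroup.of (C.act y s, t) = b at *
      generalize FreeGroup.of (C.act (C.act y t) s, s) = c at *
      generalize FreeGroup.of (C.act y t, t) = d at *
      generalize FreeGroup.of (y, t) = e at *
      generalize FreeGroup.of (C.act y t, s) = f at *
      have e1 : a * b * (e * f)⁻¹ = (a * (b * (c * d))) *
          (((c * d)⁻¹) * (c * f)⁻¹ * ((c * d)⁻¹)⁻¹) * (d⁻¹ * (d * e)⁻¹ * d⁻¹⁻¹) := by group
      rw [e1]
      exact Amul 2 1 _ _ (Amul 1 1 _ _ hsq (Acj 1 _ _ (Ainv 1 _ b1))) (Acj 1 _ _ (Ainv 1 _ b2))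
    have e2 : wd C.act y (s :: (t :: u ++ [s])) * (wd C.act y (t :: u))⁻¹ =
        (FreeGroup.of (y, s) * FreeGroup.of (C.act y s, t) *
        (FreeGroup.of (y, t) * FreeGroup.of (C.act y t, s))⁻¹) *
        (FreeGroup.of (y, t) * (wd C.act (C.act y t) (s :: (u ++ [s])) *
          (wd C.act (C.act y t) u)⁻¹) * (FreeGroup.of (y, t))⁻¹) := by
      simp only [List.cons_append, wd]
      rw [sq1]
      group
    rw [e2]
    have := Amul 3 (3 * u.length + 1) _ _ hsw (Acj _ _ (FreeGroup.of (y, t)) ih')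
    refine Am _ _ _ ?_ this
    simp only [List.length_cons]
    omega

end Pool.Agent.H14.PD
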