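import Pool.Agent.H14.PD.Stmts

/-!
Project PD: DEL, BIG.
-/

set_option autoImplicit false

namespace Pool.Agent.H14.PD

theorem pd_del_eta {V S : Type} (M : Mc V S) (x : V) (s : S) (h : M.lab x s) :
    |M.eta x s| ≤ M.m := by
  have hm := M.m_pos
  by_cases hb : M.big s
  · rcases M.eta_big x s h hb with h1 | h1 <;> rw [h1] <;> simp
  · rcases M.eta_small x s h hb with h1 | h1 <;> rw [h1] <;> simp <;> omega

theorem pd_del : M_DEL := by
  intro trb qsw ssq V S M a b G _ q hq y s u
  obtain ⟨Q1, Q2, -⟩ := qsw _ _ (M.slab a b) G q hq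
  have hh : ∀ (v : V × ℤ) (s : S), (M.lact v s).2 = v.2 + M.eta v.1 s := fun v s => rfl
  have hm := M.m_pos
  induction u generalizing y with
  | nil =>
    intro _ htr h1 h2
    have l1 : M.lab y.1 s := htr.1
    have e1 := abs_le.1 (pd_del_eta M y.1 s l1)
    simp only [List.length_nil, Nat.cast_zero, zero_add] at h1 h2
    have := Q1 y s ⟨l1, by constructor <;> nlinarith, by
      constructor <;> rw [hh] <;> nlinarith⟩
    simp only [List.nil_append, wd, map_mul, mul_one, map_one]
    exact this
  | cons t u ih =>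
    intro hu htr h1 h2
    have hst : M.cm s t := hu t List.mem_cons_self
    have l1 : M.lab y.1 s := htr.1
    have l2 : M.lab (M.lact y s).1 t := htr.2.1
    have l3 : M.lab y.1 t := M.cv y.1 s t hst l1 l2
    have sq1 := M.lf.sq y s t hst l1 l3
    have sq2 := M.lf.sq y t s (M.cm_symm _ _ hst) l3 l1
    have e1 := abs_le.1 (pd_del_eta M y.1 s l1)
    have e2 := abs_le.1 (pd_del_eta M y.1 t l3)
    have e3 := abs_le.1 (pd_del_eta M (M.lact y s).1 t l2)
    simp only [List.length_cons, Nat.cast_add, Nat.cast_one] at h1 h2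
    have hmu : (0 : ℤ) ≤ M.m * (u.length : ℤ) := by positivity
    have hmm : (1 : ℤ) ≤ M.m := by exact_mod_cast hm
    obtain ⟨u1, u2⟩ := ssq V S M a b y s t hst l1 l3 (by constructor <;> nlinarith)
      (by rw [hh]; constructor <;> nlinarith) (by rw [hh]; constructor <;> nlinarith)
      (by rw [hh, hh]; constructor <;> nlinarith)
    have s1 := (Q2 y s t hst u1 u2).2.2
    simp only [wd, map_mul, mul_one] at s1
    have htr' : Tr M.lf.lab M.lact (M.lact y t) (s :: (u ++ [s])) := by
      refine ⟨sq2.1, ?_⟩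
      have : M.lact (M.lact y t) s = M.lact (M.lact y s) t := sq2.2
      rw [this]
      exact htr.2.2
    have ih' := ih (M.lact y t) (fun x hx => hu x (List.mem_cons_of_mem _ hx)) htr'
      (by rw [hh]; nlinarith) (by rw [hh]; nlinarith)
    have e5 : M.lact (M.lact y s) t = M.lact (M.lact y t) s := sq1.2
    simp only [List.cons_append, wd, map_mul] at ih' ⊢
    rw [← mul_assoc, e5]
    change q (FreeGroup.of (y, s)) * q (FreeGroup.of (M.lact y s, t)) =
      q (FreeGroup.of (y, t)) * q (FreeGroup.of (M.lact y t, s)) at s1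
    rw [s1, mul_assoc]
    change q (FreeGroup.of (y, t)) * (q (FreeGroup.of (M.lact y t, s)) * _) = _
    rw [ih']

theorem pd_big : M_BIG := by
  intro prb tqb rdb vdw trb trc slp del V S M y w
  have hcs := M.cm_symm
  have hci := M.cm_irr
  obtain ⟨p1, p2, p3, p4, p5, p6⟩ := prb S M.cm
  obtain ⟨t1, t2, t3, t4, t5, t6, t7⟩ := tqb S M.cm hcs
  obtain ⟨r1, r2, r3, r4⟩ := rdb S M.cm
  induction hn : w.length using Nat.strong_induction_on generalizing w with
  | _ n ih =>
  intro htr hpr a b h1 h2
  by_cases hw : Rd M.cm w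
  · have : Tq M.cm w [] := vdw S M.cm hcs hci w [] hw (r4 [] (by simp)) (by rw [hpr, p1])
    have h3 := (t3 _ _ this).length_eq
    have h4 : w = [] := List.eq_nil_of_length_eq_zero (by simpa using h3)
    subst h4
    simp only [wd]
    exact Subgroup.one_mem _
  · obtain ⟨p, u, r, s, hw1, hu⟩ := r3 w hw
    have hlen : w.length = p.length + u.length + r.length + 2 := by
      rw [hw1]; simp; omega
    have hT := trb (V × ℤ) S M.lf.lab M.lact
    have htr' : Tr M.lf.lab M.lact y (p ++ s :: (u ++ s :: r)) := by rw [← hw1]; exact htr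
    have hdel := (trc (V × ℤ) S M.lf).2.1 y p u r s hu htr'
    have hsplit : p ++ s :: (u ++ s :: r) = p ++ ((s :: (u ++ [s])) ++ r) := by simp
    have hp : Tr M.lf.lab M.lact y p := ((hT.1 _ _ _).1 htr').1
    have hmid : Tr M.lf.lab M.lact (en M.lact y p) (s :: (u ++ [s])) := by
      have h5 := ((hT.1 _ _ _).1 htr').2
      have h6 : s :: (u ++ s :: r) = (s :: (u ++ [s])) ++ r := by simp
      rw [h6] at h5
      exact ((hT.1 _ _ _).1 h5).1
    have hbd := (slp V S M a b).2.2.2.2.1 y p hp
    have hbd' := abs_le.1 hbd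
    have hmm : (1 : ℤ) ≤ M.m := by exact_mod_cast M.m_pos
    have hlen' : (n : ℤ) = p.length + u.length + r.length + 2 := by
      rw [← hn]; exact_mod_cast hlen
    have hN : (0 : ℤ) ≤ M.m * (r.length : ℤ) := by positivity
    have hq : ∀ x ∈ (M.slab a b).nrel,
        QuotientGroup.mk' (Subgroup.normalClosure (M.slab a b).nrel) x = 1 := by
      intro x hx
      exact (QuotientGroup.eq_one_iff x).2 (Subgroup.subset_normalClosure hx)
    have hd := del V S M a b _ (QuotientGroup.mk' (Subgroup.normalClosure (M.slab a b).nrel)) hq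
      (en M.lact y p) s u hu hmid (by nlinarith) (by nlinarith)
    -- end points
    have hend : en M.lact (en M.lact y p) (s :: (u ++ [s])) = en M.lact (en M.lact y p) u := by
      have hmid' : Tr M.lf.lab M.lf.act (en M.lact y p) ([] ++ s :: (u ++ s :: [])) := hmid
      have h7 := (trc (V × ℤ) S M.lf).2.1 (en M.lact y p) [] u [] s hu hmid'
      have h8 := h7.2
      simp only [List.nil_append, List.append_nil] at h8
      exact h8.symm
    have hpr' : pr M.cm (p ++ u ++ r) = 1 := by
      rw [← hpr]
      have h9 : Tq M.cm (p ++ s :: (u ++ s :: r)) (p ++ (u ++ [s]) ++ s :: r) := by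
        have := t2 _ _ p (s :: r) (t6 s u hu)
        simpa using this
      rw [hw1, t5 _ _ h9]
      simp only [p3, p2, p1, mul_one]
      rw [mul_assoc (pr M.cm p) _ (io M.cm s * pr M.cm r), mul_assoc (pr M.cm u),
        ← mul_assoc (io M.cm s) (io M.cm s), p4, one_mul, mul_assoc]
    have ih' := ih (p ++ u ++ r).length (by rw [← hn, hlen]; simp; omega) (p ++ u ++ r) rfl
      hdel.1 hpr' a b
      (by simp only [List.length_append, Nat.cast_add]; nlinarith)
      (by simp only [List.length_append, Nat.cast_add]; nlinarith)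
    have hw2 : wd M.lact y w = wd M.lact y p * wd M.lact (en M.lact y p) (s :: (u ++ [s])) *
        wd M.lact (en M.lact (en M.lact y p) u) r := by
      rw [hw1, hsplit, hT.2.2.1, hT.2.2.1, hend, mul_assoc]
    have hw3 : wd M.lact y (p ++ u ++ r) = wd M.lact y p * wd M.lact (en M.lact y p) u *
        wd M.lact (en M.lact (en M.lact y p) u) r := by
      rw [hT.2.2.1, hT.2.2.1, hT.2.1]
    have key : QuotientGroup.mk' (Subgroup.normalClosure (M.slab a b).nrel) (wd M.lact y w) = 1 := by
      rw [hw2, map_mul, map_mul, hd, ← map_mul, ← map_mul, ← hw3]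
      exact (QuotientGroup.eq_one_iff _).2 ih'
    exact (QuotientGroup.eq_one_iff _).1 key

end Pool.Agent.H14.PD
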