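import Mathlib

/-!
Project PD (MP_822040_al): for every `d` a hyperbolic group with a finitely presented subgroup whose
Dehn function is at least `n ^ d`.  Definitions.
-/

set_option autoImplicit false

namespace Pool.Agent.H14.PD

/-! ### Words modulo commutation and the right-angled Coxeter group -/

/-- one exchange of two adjacent commuting letters -/
inductive Sw {S : Type} (cm : S → S → Prop) : List S → List S → Prop
  | mk (a b : List S) (s t : S) (h : cm s t) : Sw cm (a ++ s :: t :: b) (a ++ t :: s :: b)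

/-- trace equivalence -/
def Tq {S : Type} (cm : S → S → Prop) : List S → List S → Prop := Relation.ReflTransGen (Sw cm)

/-- reduced words: between two occurrences of `s` some letter does not commute with `s` -/
def Rd {S : Type} (cm : S → S → Prop) (w : List S) : Prop :=
  ∀ (a u b : List S) (s : S), w = a ++ s :: (u ++ s :: b) → ∃ t ∈ u, ¬ cm s t

/-- relators of the right-angled Coxeter group -/
def wrel {S : Type} (cm : S → S → Prop) : Set (FreeGroup S) :=
  {r | (∃ s, r = FreeGroup.of s * FreeGroup.of s) ∨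
    (∃ s t, cm s t ∧
      r = FreeGroup.of s * FreeGroup.of t * (FreeGroup.of s)⁻¹ * (FreeGroup.of t)⁻¹)}

/-- the right-angled Coxeter group -/
abbrev Wg {S : Type} (cm : S → S → Prop) : Type := PresentedGroup (wrel cm)

/-- generators -/
def io {S : Type} (cm : S → S → Prop) (s : S) : Wg cm := PresentedGroup.of s

/-- value of a word -/
def pr {S : Type} (cm : S → S → Prop) (w : List S) : Wg cm := (w.map (io cm)).prod

/-- word length in the Coxeter group -/
noncomputable def len {S : Type} (cm : S → S → Prop) (g : Wg cm) : ℕ :=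
  sInf {n | ∃ w : List S, w.length = n ∧ pr cm w = g}

/-! ### Partial actions and traced words -/

/-- `w` can be traced from `y` -/
def Tr {Y S : Type} (lab : Y → S → Prop) (act : Y → S → Y) : Y → List S → Prop
  | _, [] => True
  | y, s :: w => lab y s ∧ Tr lab act (act y s) w

/-- end point -/
def en {Y S : Type} (act : Y → S → Y) : Y → List S → Y
  | y, [] => y
  | y, s :: w => en act (act y s) w

/-- the product of the darts of a path in the free group on all pairs (vertex, label) -/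
def wd {Y S : Type} (act : Y → S → Y) : Y → List S → FreeGroup (Y × S)
  | _, [] => 1
  | y, s :: w => FreeGroup.of (y, s) * wd act (act y s) w

/-- a partial action by involutions -/
structure Sq (Y S : Type) where
  cm : S → S → Prop
  lab : Y → S → Prop
  act : Y → S → Y
  inv : ∀ y s, lab y s → lab (act y s) s ∧ act (act y s) s = y

/-- the partial action of a nonpositively curved complex -/
structure Cx (Y S : Type) extends Sq Y S where
  cm_symm : ∀ s t, cm s t → cm t s
  cm_irr : ∀ s, ¬ cm s s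
  sq : ∀ x s t, cm s t → lab x s → lab x t → lab (act x s) t ∧ act (act x s) t = act (act x t) s
  cv : ∀ x s t, cm s t → lab x s → lab (act x s) t → lab x t

/-- commuting reduced words traced at one vertex cannot both be longer than `N` -/
def Grid {Y S : Type} (cm : S → S → Prop) (lab : Y → S → Prop) (act : Y → S → Y) (N : ℕ) : Prop :=
  ∀ (x : Y) (u v : List S), Tr lab act x u → Tr lab act x v → Rd cm u → Rd cm v →
    (∀ a ∈ u, ∀ b ∈ v, cm a b) → u.length ≤ N ∨ v.length ≤ N

/-! ### Presentations -/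

/-- `w` is a product of at most `n` conjugates of relators and their inverses -/
def Ar {X : Type} (R : Set (FreeGroup X)) (n : ℕ) (w : FreeGroup X) : Prop :=
  ∃ L : List (FreeGroup X × FreeGroup X), (∀ p ∈ L, p.2 ∈ R ∨ p.2⁻¹ ∈ R) ∧
    (L.map (fun p => p.1 * p.2 * p.1⁻¹)).prod = w ∧ L.length ≤ n

namespace Sq

variable {Y S : Type} (Q : Sq Y S)

/-- `y` can be reached from `y0` -/
def Rc (y0 y : Y) : Prop := ∃ w, Tr Q.lab Q.act y0 w ∧ en Q.act y0 w = y

open Classical in
/-- a chosen path from `y0` to `y` -/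
noncomputable def tau (y0 y : Y) : List S :=
  if y = y0 then [] else if h : Q.Rc y0 y then Classical.choose h else []

/-- homotopy relators: backtracks and squares -/
def nrel : Set (FreeGroup (Y × S)) :=
  {r | (∃ y s, Q.lab y s ∧ r = wd Q.act y [s, s]) ∨
    (∃ y s t, Q.cm s t ∧ Tr Q.lab Q.act y [s, t, s, t] ∧ en Q.act y [s, t, s, t] = y ∧
      r = wd Q.act y [s, t, s, t])}

/-- all relators: impossible darts, backtracks, squares, chosen paths -/
def rel (y0 : Y) : Set (FreeGroup (Y × S)) :=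
  {r | (∃ y s, ¬ (Q.Rc y0 y ∧ Q.lab y s) ∧ r = FreeGroup.of (y, s)) ∨
    (∃ y s, Q.Rc y0 y ∧ Q.lab y s ∧ r = wd Q.act y [s, s]) ∨
    (∃ y s t, Q.Rc y0 y ∧ Q.cm s t ∧ Tr Q.lab Q.act y [s, t, s, t] ∧
      en Q.act y [s, t, s, t] = y ∧ r = wd Q.act y [s, t, s, t]) ∨
    (∃ y, Q.Rc y0 y ∧ r = wd Q.act y0 (Q.tau y0 y))}

open Classical in
/-- the label of the loop of a dart -/
noncomputable def Phi (y0 : Y) : FreeGroup (Y × S) →* Wg Q.cm :=
  FreeGroup.lift (fun p : Y × S =>
    if Q.Rc y0 p.1 ∧ Q.lab p.1 p.2 then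
      pr Q.cm (Q.tau y0 p.1) * io Q.cm p.2 * (pr Q.cm (Q.tau y0 (Q.act p.1 p.2)))⁻¹
    else 1)

end Sq

/-! ### Heights -/

/-- a complex with a height function whose steps are `± m` (big labels) and `± 1` (small labels) -/
structure Mc (V S : Type) extends Cx V S where
  m : ℕ
  m_pos : 1 ≤ m
  eta : V → S → ℤ
  big : S → Prop
  eta_inv : ∀ x s, lab x s → eta (act x s) s = - eta x s
  eta_sq : ∀ x s t, cm s t → lab x s → lab x t → eta (act x t) s = eta x s
  eta_big : ∀ x s, lab x s → big s → eta x s = m ∨ eta x s = -m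
  eta_small : ∀ x s, lab x s → ¬ big s → eta x s = 1 ∨ eta x s = -1
  big_cm : ∀ s t, big s → big t → ¬ cm s t

/-- a link: the join of a discrete nonempty set and a connected nonempty graph -/
def Lk {S : Type} (cm : S → S → Prop) (A : S → Prop) : Prop :=
  ∃ D E : S → Prop, (∀ s, A s ↔ D s ∨ E s) ∧ (∃ d, D d) ∧ (∃ e, E e) ∧
    (∀ d e, D d → E e → cm d e) ∧ (∀ d d', D d → D d' → ¬ cm d d') ∧
    (∀ e e', E e → E e' → Relation.ReflTransGen (fun a b => E a ∧ E b ∧ cm a b) e e')

namespace Mc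

variable {V S : Type} (M : Mc V S)

/-- the action with heights -/
def lact (y : V × ℤ) (s : S) : V × ℤ := (M.act y.1 s, y.2 + M.eta y.1 s)

/-- the complex with heights -/
def lf : Cx (V × ℤ) S where
  cm := M.cm
  lab := fun y s => M.lab y.1 s
  act := M.lact
  inv := by
    intro y s h
    refine ⟨(M.inv y.1 s h).1, ?_⟩
    have h1 := (M.inv y.1 s h).2
    have h2 := M.eta_inv y.1 s h
    apply Prod.ext
    · exact h1
    · simp only [lact, h2]; ring
  cm_symm := M.cm_symm
  cm_irr := M.cm_irr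
  sq := by
    intro x s t hc hs ht
    have h1 := M.sq x.1 s t hc hs ht
    have h2 := M.eta_sq x.1 s t hc hs ht
    have h3 := M.eta_sq x.1 t s (M.cm_symm _ _ hc) ht hs
    refine ⟨h1.1, ?_⟩
    apply Prod.ext
    · exact h1.2
    · simp only [lact, h2, h3]; ring
  cv := by
    intro x s t hc hs ht
    exact M.cv x.1 s t hc hs ht

/-- the part of the complex with heights in `[a, b]` -/
def slab (a b : ℤ) : Sq (V × ℤ) S where
  cm := M.cm
  lab := fun y s => M.lab y.1 s ∧ (a ≤ y.2 ∧ y.2 ≤ b) ∧ (a ≤ (M.lact y s).2 ∧ (M.lact y s).2 ≤ b)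
  act := M.lact
  inv := by
    intro y s h
    have h0 := M.lf.inv y s h.1
    refine ⟨⟨h0.1, h.2.2, ?_⟩, h0.2⟩
    have h1 : M.lact (M.lact y s) s = y := h0.2
    rw [h1]; exact h.2.1

/-- the labelling homomorphism of a slab -/
noncomputable def sPhi (a b : ℤ) (y0 : V × ℤ) : FreeGroup ((V × ℤ) × S) →* Wg M.cm :=
  (M.slab a b).Phi y0

/-- traced words with all heights in `[a, b]` -/
def Sl (a b : ℤ) (y : V × ℤ) (w : List S) : Prop :=
  (a ≤ y.2 ∧ y.2 ≤ b) ∧ Tr (M.slab a b).lab M.lact y w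

/-- ascending links -/
def LkUp : Prop := ∀ x, (∃ s, M.lab x s) → Lk M.cm (fun s => M.lab x s ∧ 0 < M.eta x s)

/-- descending links -/
def LkDn : Prop := ∀ x, (∃ s, M.lab x s) → Lk M.cm (fun s => M.lab x s ∧ M.eta x s < 0)

end Mc

/-- a complex with two sides for the big labels -/
structure Sd (V S : Type) extends Mc V S where
  side : S → Bool
  cp : Bool → V → Prop
  Yv : V → Prop
  sp : S → Prop
  o : V
  grid : Grid cm lab act 6
  lkup : toMc.LkUp
  lkdn : toMc.LkDn
  cp_small : ∀ b x s, cp b x → lab x s → ¬ big s → cp b (act x s)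
  cp_big : ∀ b x s, cp b x → lab x s → big s → side s = b → cp b (act x s)
  R1 : ∀ b x s, cp b x → lab x s → ¬ big s → 0 < eta x s →
    ∃ a, big a ∧ side a = b ∧ lab x a ∧ 0 < eta x a ∧ cm s a
  R2 : ∀ x, (∃ s, lab x s) → ∃ s, ¬ big s ∧ lab x s ∧ 0 < eta x s ∧
    ∀ a, big a → lab x a → 0 < eta x a → cm s a
  cp_o : ∀ b, cp b o
  Y_o : Yv o
  sp_big : ∀ s, sp s → big s
  sp_side : ∀ s, sp s → side s = true
  Y_small : ∀ x s, lab x s → ¬ big s → (Yv (act x s) ↔ Yv x)
  Y_sp : ∀ x s, lab x s → sp s → (Yv (act x s) ↔ ¬ Yv x)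
  Y_bt : ∀ x s, lab x s → big s → side s = true → ¬ sp s → ¬ Yv x ∧ ¬ Yv (act x s)
  vdn : ℕ → List S
  vup : ℕ → List S
  v_small : ∀ r, ∀ s ∈ vdn r ++ vup r, ¬ big s
  v_rd : ∀ r, Rd cm (vdn r ++ vup r)
  v_sl : ∀ r : ℕ, toMc.Sl (-(r * m : ℤ)) 0 (o, 0) (vdn r ++ vup r)
  v_bot : ∀ r : ℕ, (en toMc.lact (o, 0) (vdn r)).2 = -(r * m : ℤ)
  v_end : ∀ r : ℕ, (en toMc.lact (o, 0) (vdn r ++ vup r)).2 = 0
  v_len : ∀ r : ℕ, (vdn r ++ vup r).length = 2 * (r * m)

/-! ### The lower bound -/

section Low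

variable {V S : Type} (M : Sd V S)

/-- truncated distance from the base point to `g` inside the `Y`-part of the slab `[0, b]` -/
noncomputable def lam (b : ℤ) (B : ℕ) (g : Wg M.cm) : ℤ :=
  ((sInf {n : ℕ | n = B ∨ ∃ u : List S, M.Sl 0 b (M.o, 0) u ∧ (∀ s ∈ u, ¬ M.big s) ∧
    pr M.cm u = g ∧ u.length = n} : ℕ) : ℤ)

open Classical in
/-- sum of the crossings of the special edges along a path -/
noncomputable def psum (lm : Wg M.cm → ℤ) : Wg M.cm → V → List S → ℤ
  | _, _, [] => 0
  | g, x, s :: w =>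
    (if M.sp s then (if M.Yv x then lm g else - lm (g * io M.cm s)) else 0) +
      psum lm (g * io M.cm s) (M.act x s) w

end Low

/-! ### The concrete complex -/

/-- a sizeable graph with the extra choices -/
structure Sz (P Q : Type) where
  adj : P → Q → Prop
  bp : P → Bool
  bq : Q → Bool
  c4 : ∀ p p' q q', adj p q → adj p q' → adj p' q → adj p' q' → p = p' ∨ q = q'
  nbp : ∀ p b, ∃ q, adj p q ∧ bq q = b
  nbq : ∀ q b, ∃ p, adj p q ∧ bp p = b
  con : ∀ b c p p', bp p = b → bp p' = b →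
    Relation.ReflTransGen (fun a a' => bp a' = b ∧ ∃ q, bq q = c ∧ adj a q ∧ adj a' q) p p'
  ps : P
  qs : Q
  ps_qs : adj ps qs
  p0 : P
  p1 : P
  q0 : Q
  q0' : Q
  q1 : Q
  hp0 : bp p0 = false
  hp1 : bp p1 = true
  hq0 : bq q0 = false
  hq0' : bq q0' = false
  hq1 : bq q1 = true
  hne : q0 ≠ q0'

/-- nodes of the coordinate graph -/
inductive Nd (P Q : Type) : Type
  | p (a : P) (b : Bool) : Nd P Q
  | q (a : Q) (b : Bool) : Nd P Q
  deriving DecidableEq

/-- vertices -/
abbrev Xv (P Q : Type) : Type := Fin 3 → Nd P Q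

/-- labels: direction, `P`-name, `Q`-name, side -/
abbrev Xs (P Q : Type) : Type := Fin 3 × P × Q × Bool

section Con

variable {P Q : Type} (Z : Sz P Q)

open Classical in
/-- the `P`-end of an edge (the two copies of `ps` are identified) -/
noncomputable def pe (p : P) (b : Bool) : Nd P Q := if p = Z.ps then Nd.p p false else Nd.p p b

/-- normalised nodes -/
def nrm (n : Nd P Q) : Prop := ∀ b, n = Nd.p Z.ps b → b = false

/-- allowed vertices -/
def gd (x : Xv P Q) : Prop :=
  (∀ i, nrm Z (x i)) ∧ ∀ i p b q c, x i = Nd.p p b → x (i + 1) = Nd.q q c → Z.adj p q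

open Classical in
/-- the other end of the edge -/
noncomputable def oe (n : Nd P Q) (p : P) (q : Q) (b : Bool) : Nd P Q :=
  if n = Nd.q q b then pe Z p b else Nd.q q b

/-- the action of a label -/
noncomputable def xact (x : Xv P Q) (s : Xs P Q) : Xv P Q :=
  Function.update x s.1 (oe Z (x s.1) s.2.1 s.2.2.1 s.2.2.2)

/-- available labels -/
def xlab (x : Xv P Q) (s : Xs P Q) : Prop :=
  gd Z x ∧ gd Z (xact Z x s) ∧ (x s.1 = Nd.q s.2.2.1 s.2.2.2 ∨ x s.1 = pe Z s.2.1 s.2.2.2)

/-- commuting labels -/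
def xcm (s t : Xs P Q) : Prop :=
  (t.1 = s.1 + 1 ∧ Z.adj s.2.1 t.2.2.1) ∨ (s.1 = t.1 + 1 ∧ Z.adj t.2.1 s.2.2.1)

/-- big labels -/
def xbig (s : Xs P Q) : Prop := s.1 = 0

open Classical in
/-- heights: going from the `P`-end to the `Q`-end is an ascent iff the bits agree -/
noncomputable def xeta (m : ℕ) (x : Xv P Q) (s : Xs P Q) : ℤ :=
  (if s.1 = 0 then (m : ℤ) else 1) *
    ((if Z.bp s.2.1 = Z.bq s.2.2.1 then 1 else -1) *
      (if x s.1 = Nd.q s.2.2.1 s.2.2.2 then -1 else 1))

/-- the base vertex -/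
def xo : Xv P Q := fun i => if i = 0 then Nd.p Z.ps false else if i = 1 then Nd.q Z.qs false
  else Nd.p Z.p0 false

/-- vertices over `ps` -/
def xY (x : Xv P Q) : Prop := ∃ b, x 0 = Nd.p Z.ps b

/-- special labels -/
def xsp (s : Xs P Q) : Prop := s.1 = 0 ∧ s.2.1 = Z.ps ∧ s.2.2.2 = true

/-- vertices on side `b` -/
def xcp (b : Bool) (x : Xv P Q) : Prop := xY Z x ∨ (∃ p, x 0 = Nd.p p b) ∨ (∃ q, x 0 = Nd.q q b)

/-- one ascending turn in direction 2 through the `Q`-nodes `q` and `q1` -/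
def uw (q : Q) : List (Xs P Q) :=
  [(2, Z.p0, q, false), (2, Z.p1, q, false), (2, Z.p1, Z.q1, false), (2, Z.p0, Z.q1, false)]

/-- `k` turns -/
def uwk (q : Q) : ℕ → List (Xs P Q)
  | 0 => []
  | k + 1 => uw Z q ++ uwk q k

end Con

end Pool.Agent.H14.PD
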