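import Pool.Agent.H14.PD.Stmts

/-!
Project PD: everything together.
-/

set_option autoImplicit false

namespace Pool.Agent.H14.PD

theorem pd_fin : M_FIN := by
  intro arc tau phi amb slk tfb fia fib tht fnl d mu C hmu hn V S _ _ M hM
  set b : ℤ := (M.m : ℤ) + 1 with hb
  have hb0 : 0 ≤ b := by positivity
  have T0 := tau _ _ M.toSq M.o
  obtain ⟨T, hT⟩ := T0.2.2.2.2.2.2 (Set.toFinite _)
  obtain ⟨K, hK⟩ := amb _ _ M.toCx M.o T M.grid hT
  obtain ⟨Th, hTh⟩ := tht V S M.toMc 0 b (M.o, 0)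
  have F := fib V S M.toMc 0 b (M.o, 0) ⟨le_rfl, hb0⟩
  have ker : ∀ w, M.Phi M.o w = 1 ↔ w ∈ Subgroup.normalClosure (M.rel M.o) := by
    intro w
    constructor
    · intro h
      classical
      have h1 : FreeGroup.mk (FreeGroup.toWord w) = w := FreeGroup.mk_toWord
      rw [← h1] at h ⊢
      exact ((arc _ (M.rel M.o)).2.2.2.2.2.2 _).2 ⟨_, hK _ h⟩
    · intro h
      exact (phi _ _ M.toSq M.o).2.2.1 w h
  refine tfb d (V × S) ((V × ℤ) × S) {x : (V × ℤ) × S | 0 ≤ x.1.2 ∧ x.1.2 ≤ b} (M.rel M.o)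
    ((M.slab 0 b).rel (M.o, 0)) K (C + 1) Th (fia _ _ _ _) F.1 F.2.1 F.2.2 ?_ ?_ ?_
  · intro L hL
    exact hK L ((ker _).2 hL)
  · intro w
    rw [← ker, ← slk V S M.toMc M.lkup M.lkdn 0 b (M.o, 0) (by rw [hb]; omega)]
    rw [← hTh]
  · intro n
    obtain ⟨r, k, h1, h2⟩ := hn n
    obtain ⟨L, a1, a2, a3, a4⟩ := fnl V S M r k
    have a2' : L.length ≤ 4 * (r * (24 * mu)) * (2 * (24 * mu) + 6) ^ r := by rw [← hM]; exact a2
    have a4' : 6 * k < r * (24 * mu) → ∀ N : ℕ,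
        Ar ((M.slab 0 b).rel (M.o, 0)) N (FreeGroup.mk L) →
        2 ^ k ≤ N + 4 * (r * (24 * mu)) * (2 * (24 * mu) + 6) ^ r := by
      rw [← hM]; exact a4
    refine ⟨L, a1, ?_, ?_, ?_⟩
    · nlinarith [a2', h1, Nat.zero_le (C * n)]
    · exact (slk V S M.toMc M.lkup M.lkdn 0 b (M.o, 0) (by rw [hb]; omega) _).1 a3
    · intro N hN
      rcases h2 with ⟨_, h2⟩ | ⟨h2, h3⟩
      · calc n ^ d ≤ C := h2
          _ ≤ (C + 1) * N + (C + 1) * n + (C + 1) := by nlinarith [Nat.zero_le ((C+1) * N), Nat.zero_le ((C+1)*n)]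
      · have h4 := a4' h2 N hN
        have h5 : 2 ^ k ≤ N + n := by omega
        calc n ^ d ≤ C * 2 ^ k := h3
          _ ≤ C * (N + n) := Nat.mul_le_mul_left _ h5
          _ ≤ (C + 1) * N + (C + 1) * n + (C + 1) := by nlinarith

end Pool.Agent.H14.PD
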