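import Pool.Agent.H14.PD.Stmts

/-!
Project PD: the words with large area.
-/

set_option autoImplicit false

namespace Pool.Agent.H14.PD

/-- list of darts -/
def fnl_dl {Y S : Type} (act : Y → S → Y) : Y → List S → List ((Y × S) × Bool)
  | _, [] => []
  | y, s :: w => ((y, s), true) :: fnl_dl act (act y s) w

theorem fnl_mk {Y S : Type} (act : Y → S → Y) (w : List S) :
    ∀ y, FreeGroup.mk (fnl_dl act y w) = wd act y w := by
  induction w with
  | nil => intro y; rfl
  | cons s w ih =>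
    intro y
    simp only [fnl_dl, wd, ← ih]
    rw [FreeGroup.of, FreeGroup.mul_mk]
    rfl

theorem fnl_len {Y S : Type} (act : Y → S → Y) (w : List S) :
    ∀ y, (fnl_dl act y w).length = w.length := by
  induction w with
  | nil => intro y; rfl
  | cons s w ih => intro y; simp [fnl_dl, ih]

theorem fnl_mem {V S : Type} (M : Mc V S) (a b : ℤ) (w : List S) :
    ∀ y, Tr (M.slab a b).lab M.lact y w → ∀ x ∈ fnl_dl M.lact y w,
      a ≤ x.1.1.2 ∧ x.1.1.2 ≤ b := by
  induction w with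
  | nil => intro y _ x hx; simp [fnl_dl] at hx
  | cons s w ih =>
    intro y h x hx
    simp only [fnl_dl, List.mem_cons] at hx
    rcases hx with rfl | hx
    · exact h.1.2.1
    · exact ih _ h.2 x hx

theorem fnl_Y {V S : Type} (M : Sd V S) (w : List S) :
    ∀ x, Tr M.lab M.act x w → (∀ s ∈ w, ¬ M.big s) → (M.Yv (en M.act x w) ↔ M.Yv x) := by
  induction w with
  | nil => intro x _ _; rfl
  | cons s w ih =>
    intro x h hs
    simp only [en]
    rw [ih _ h.2 (fun t ht => hs t (List.mem_cons_of_mem _ ht))]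
    exact M.Y_small x s h.1 (hs s (List.mem_cons_self))

theorem pd_fnl : M_FNL := by
  intro prb trb trc tau phi slp alp lip dst low V S M r k
  obtain ⟨al, hal, pal, lal, sal⟩ := alp V S M false r
  obtain ⟨be, hbe, pbe, lbe, sbe⟩ := alp V S M true r
  set b : ℤ := (M.m : ℤ) + 1 with hb
  have hb0 : 0 ≤ b := by positivity
  have S1 := slp V S M.toMc 0 b
  have S0 := slp V S M.toMc 0 (M.m : ℤ)
  have mono : ∀ w, M.Sl 0 M.m (M.o, 0) w → M.Sl 0 b (M.o, 0) w := by
    intro w hw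
    exact S0.2.2.2.2.2.2.2.2 0 b (M.o, 0) w le_rfl (by omega) hw |> fun h => h
  have hal' := mono al hal
  have hbe' := mono be hbe
  set V0 := M.vdn r ++ M.vup r with hV0
  have SV := slp V S M.toMc (-(r * M.m : ℤ)) 0
  have hV : Tr M.lf.lab M.lact (M.o, 0) V0 := SV.2.1 _ _ (M.v_sl r).2
  have tal : Tr M.lf.lab M.lact (M.o, 0) al := S1.2.1 _ _ hal'.2
  have tbe : Tr M.lf.lab M.lact (M.o, 0) be := S1.2.1 _ _ hbe'.2
  have hpab : pr M.cm al = pr M.cm be := by rw [pal, pbe]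
  have enab : en M.lact (M.o, 0) al = en M.lact (M.o, 0) be :=
    (trc _ _ M.lf).2.2.2 _ _ _ tal tbe hpab
  have enV : en M.lact (M.o, 0) be = en M.lact (M.o, 0) V0 :=
    (trc _ _ M.lf).2.2.2 _ _ _ tbe hV pbe
  have hY : M.Yv (en M.act M.o be) := by
    have h1 : en M.act M.o be = en M.act M.o V0 := by
      have h2 := S1.1 (M.o, 0) be
      have h3 := S1.1 (M.o, 0) V0
      simp only at h2 h3
      rw [← h2, ← h3, enV]
    rw [h1]
    have h4 : Tr M.lab M.act M.o V0 := (S1.2.2.1 (M.o, 0) V0).1 hV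
    exact (fnl_Y M V0 M.o h4 (M.v_small r)).2 M.Y_o
  have hsp : ∀ s ∈ al, ¬ M.sp s := by
    intro s hs hsp
    have h1 := sal s hs (M.sp_big s hsp)
    rw [M.sp_side s hsp] at h1
    exact absurd h1 (by decide)
  have hmk : FreeGroup.mk (fnl_dl M.lact (M.o, (0 : ℤ)) al ++
      FreeGroup.invRev (fnl_dl M.lact (M.o, (0 : ℤ)) be)) =
      wd M.lact (M.o, 0) al * (wd M.lact (M.o, 0) be)⁻¹ := by
    rw [← FreeGroup.mul_mk, ← FreeGroup.inv_mk, fnl_mk, fnl_mk]
  refine ⟨fnl_dl M.lact (M.o, 0) al ++ FreeGroup.invRev (fnl_dl M.lact (M.o, 0) be), ?_, ?_, ?_, ?_⟩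
  · intro x hx
    rw [List.mem_append] at hx
    rcases hx with hx | hx
    · exact fnl_mem M.toMc 0 b al _ hal'.2 x hx
    · unfold FreeGroup.invRev at hx
      rw [List.mem_reverse, List.mem_map] at hx
      obtain ⟨z, hz, rfl⟩ := hx
      exact fnl_mem M.toMc 0 b be _ hbe'.2 z hz
  · rw [List.length_append, FreeGroup.invRev_length, fnl_len, fnl_len]
    calc al.length + be.length ≤ 2 * (r * M.m) * (2 * M.m + 6) ^ r +
        2 * (r * M.m) * (2 * M.m + 6) ^ r := add_le_add lal lbe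
      _ = 4 * (r * M.m) * (2 * M.m + 6) ^ r := by ring
  · rw [hmk, map_mul, map_inv]
    have T := tau _ _ (M.slab 0 b) (M.o, (0 : ℤ))
    have P := phi _ _ (M.slab 0 b) (M.o, (0 : ℤ))
    have h1 := P.1 (M.o, 0) al T.2.2.2.1 hal'.2
    have h2 := P.1 (M.o, 0) be T.2.2.2.1 hbe'.2
    have h3 : M.sPhi 0 b (M.o, 0) (wd M.lact (M.o, 0) al) =
        M.sPhi 0 b (M.o, 0) (wd M.lact (M.o, 0) be) := by
      refine h1.trans (Eq.trans ?_ h2.symm)
      change pr M.cm _ * pr M.cm al * (pr M.cm ((M.slab 0 b).tau (M.o, 0) (en M.lact (M.o, 0) al)))⁻¹ =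
        pr M.cm _ * pr M.cm be * (pr M.cm ((M.slab 0 b).tau (M.o, 0) (en M.lact (M.o, 0) be)))⁻¹
      rw [hpab, enab]
    rw [h3, mul_inv_cancel]
  · intro hk N hN
    rw [hmk] at hN
    have h1 := low V S M b (2 ^ k) al be N hb0 hal' hbe' hpab hY hsp sbe hN
    have h2 := dst V S M b r k hk
    rw [← hV0, ← pbe] at h2
    have h3 : (2 : ℤ) ^ k ≤ N + be.length := le_trans h2 h1
    have h4 : (2 ^ k : ℕ) ≤ N + be.length := by exact_mod_cast h3
    have h5 : 2 * (r * M.m) * (2 * M.m + 6) ^ r ≤ 4 * (r * M.m) * (2 * M.m + 6) ^ r := by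
      apply Nat.mul_le_mul_right
      omega
    omega

end Pool.Agent.H14.PD
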