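import Pool.Agent.H14.PD.Stmts

/-!
Project PD: PRR.
-/

set_option autoImplicit false

namespace Pool.Agent.H14.PD

theorem pd_prr_back {Y S : Type} (trb : TRB) (arc : ARC) (tau : TAU) (Q : Sq Y S) (y0 : Y)
    (u : List S) : Tr Q.lab Q.act y0 u →
    Ar (Q.rel y0) u.length (wd Q.act y0 u * wd Q.act (en Q.act y0 u) u.reverse) := by
  obtain ⟨A0, Am, Ar1, Amul, Acj, Ainv, -⟩ := arc (Y × S) (Q.rel y0)
  obtain ⟨b1, b2, b3, b4⟩ := trb Y S Q.lab Q.act
  have T := tau Y S Q y0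
  induction u using List.reverseRecOn with
  | nil => intro _; simpa [wd] using A0
  | append_singleton v t ih =>
    intro h
    obtain ⟨h1, h2⟩ := (b1 _ _ _).1 h
    have hz : Q.Rc y0 (en Q.act y0 v) := ⟨v, h1, rfl⟩
    have hr := Ar1 (wd Q.act (en Q.act y0 v) [t, t]) (Or.inr (Or.inl ⟨_, t, hz, h2.1, rfl⟩))
    have e1 : wd Q.act y0 (v ++ [t]) * wd Q.act (en Q.act y0 (v ++ [t])) (v ++ [t]).reverse =
        (wd Q.act y0 v * wd Q.act (en Q.act y0 v) [t, t] * (wd Q.act y0 v)⁻¹) *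
          (wd Q.act y0 v * wd Q.act (en Q.act y0 v) v.reverse) := by
      rw [b3, b2, List.reverse_append]
      simp only [List.reverse_cons, List.reverse_nil, List.nil_append, List.cons_append, en, wd,
        mul_one]
      rw [(Q.inv _ _ h2.1).2]
      group
    rw [e1]
    have := Amul 1 v.length _ _ (Acj 1 _ (wd Q.act y0 v) hr) (ih h1)
    refine Am _ _ _ ?_ this
    simp; omega

theorem pd_prr_one {Y S : Type} (prb : PRB) (trb : TRB) (arc : ARC) (tau : TAU)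
    (Q : Sq Y S) (y0 : Y) (T : ℕ) (hT : ∀ y, (Q.tau y0 y).length ≤ T) (x : (Y × S) × Bool) :
    ∃ c : List S, Tr Q.lab Q.act y0 c ∧ en Q.act y0 c = y0 ∧
    pr Q.cm c = Q.Phi y0 (FreeGroup.mk [x]) ∧ c.length ≤ 2 * T + 1 ∧
    Ar (Q.rel y0) (T + 3) (FreeGroup.mk [x] * (wd Q.act y0 c)⁻¹) := by
  obtain ⟨A0, Am, Ar1, Amul, Acj, Ainv, -⟩ := arc (Y × S) (Q.rel y0)
  obtain ⟨b1, b2, b3, b4⟩ := trb Y S Q.lab Q.act
  obtain ⟨T1, T2, T3, T4, T5, T6, -⟩ := tau Y S Q y0
  obtain ⟨p1, p2, p3, p4, p5, p6⟩ := prb S Q.cm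
  obtain ⟨⟨y, s⟩, b⟩ := x
  have hmk : ∀ b : Bool, (FreeGroup.mk [((y, s), b)] : FreeGroup (Y × S)) =
      if b then FreeGroup.of (y, s) else (FreeGroup.of (y, s))⁻¹ := by
    intro b; cases b <;> simp [FreeGroup.of, FreeGroup.inv_mk] <;> rfl
  have hPhi1 : Q.Rc y0 y ∧ Q.lab y s → Q.Phi y0 (FreeGroup.of (y, s)) =
      pr Q.cm (Q.tau y0 y) * io Q.cm s * (pr Q.cm (Q.tau y0 (Q.act y s)))⁻¹ := by
    intro h
    simp only [Sq.Phi, FreeGroup.lift_apply_of]
    rw [if_pos h]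
  have hPhi2 : ¬ (Q.Rc y0 y ∧ Q.lab y s) → Q.Phi y0 (FreeGroup.of (y, s)) = 1 := by
    intro h
    simp only [Sq.Phi, FreeGroup.lift_apply_of]
    rw [if_neg h]
  by_cases hg : Q.Rc y0 y ∧ Q.lab y s
  · obtain ⟨hy, hs⟩ := hg
    obtain ⟨i1, i2⟩ := Q.inv y s hs
    have hys : Q.Rc y0 (Q.act y s) := T5 y [s] hy ⟨hs, trivial⟩
    have hB : ∀ z, Q.Rc y0 z → Ar (Q.rel y0) (T + 1) (wd Q.act z (Q.tau y0 z).reverse) := by
      intro z hz
      have h1 := pd_prr_back trb arc tau Q y0 (Q.tau y0 z) (T2 z)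
      rw [T3 z hz] at h1
      have h2 := Ar1 (wd Q.act y0 (Q.tau y0 z)) (Or.inr (Or.inr (Or.inr ⟨z, hz, rfl⟩)))
      have h3 := Amul 1 _ _ _ (Ainv 1 _ h2) h1
      rw [← mul_assoc, inv_mul_cancel, one_mul] at h3
      exact Am _ _ _ (by have := hT z; omega) h3
    have hrev : ∀ z, Q.Rc y0 z → Tr Q.lab Q.act z (Q.tau y0 z).reverse ∧
        en Q.act z (Q.tau y0 z).reverse = y0 := by
      intro z hz
      have := b4 Q.inv y0 (Q.tau y0 z) (T2 z)
      rw [T3 z hz] at this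
      exact this
    cases b with
    | true =>
      refine ⟨Q.tau y0 y ++ ([s] ++ (Q.tau y0 (Q.act y s)).reverse), ?_, ?_, ?_, ?_, ?_⟩
      · rw [b1, b1, T3 y hy]
        exact ⟨T2 y, ⟨hs, trivial⟩, (hrev _ hys).1⟩
      · rw [b2, b2, T3 y hy]
        exact (hrev _ hys).2
      · rw [hmk, if_pos rfl, hPhi1 ⟨hy, hs⟩, p3, p3, p6, p2, p1]
        simp [mul_assoc]
      · simp only [List.length_append, List.length_cons, List.length_nil, List.length_reverse]
        have := hT y; have := hT (Q.act y s); omega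
      · rw [hmk, if_pos rfl, b3, b3, T3 y hy]
        simp only [wd, en, mul_one]
        have e1 : FreeGroup.of (y, s) * (wd Q.act y0 (Q.tau y0 y) * (FreeGroup.of (y, s) *
            wd Q.act (Q.act y s) (Q.tau y0 (Q.act y s)).reverse))⁻¹ =
            (FreeGroup.of (y, s) * (wd Q.act (Q.act y s) (Q.tau y0 (Q.act y s)).reverse)⁻¹ *
              (FreeGroup.of (y, s))⁻¹) * (wd Q.act y0 (Q.tau y0 y))⁻¹ := by group
        rw [e1]
        have := Amul _ 1 _ _ (Acj _ _ (FreeGroup.of (y, s)) (Ainv _ _ (hB _ hys)))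
          (Ainv 1 _ (Ar1 (wd Q.act y0 (Q.tau y0 y)) (Or.inr (Or.inr (Or.inr ⟨y, hy, rfl⟩)))))
        exact Am _ _ _ (by omega) this
    | false =>
      refine ⟨Q.tau y0 (Q.act y s) ++ ([s] ++ (Q.tau y0 y).reverse), ?_, ?_, ?_, ?_, ?_⟩
      · rw [b1, b1, T3 _ hys]
        refine ⟨T2 _, ⟨i1, trivial⟩, ?_⟩
        simp only [en]; rw [i2]
        exact (hrev _ hy).1
      · rw [b2, b2, T3 _ hys]
        simp only [en]; rw [i2]
        exact (hrev _ hy).2
      · rw [hmk, if_neg (by decide), map_inv, hPhi1 ⟨hy, hs⟩, p3, p3, p6, p2, p1]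
        have : (io Q.cm s)⁻¹ = io Q.cm s := inv_eq_of_mul_eq_one_left (p4 s)
        simp [mul_assoc, this]
      · simp only [List.length_append, List.length_cons, List.length_nil, List.length_reverse]
        have := hT y; have := hT (Q.act y s); omega
      · rw [hmk, if_neg (by decide), b3, b3, T3 _ hys]
        simp only [wd, en, mul_one]
        rw [i2]
        have e1 : (FreeGroup.of (y, s))⁻¹ * (wd Q.act y0 (Q.tau y0 (Q.act y s)) *
            (FreeGroup.of (Q.act y s, s) * wd Q.act y (Q.tau y0 y).reverse))⁻¹ =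
            ((FreeGroup.of (y, s))⁻¹ * (wd Q.act y (Q.tau y0 y).reverse)⁻¹ *
              ((FreeGroup.of (y, s))⁻¹)⁻¹) *
            (FreeGroup.of (Q.act y s, s) * FreeGroup.of (y, s))⁻¹ *
            (wd Q.act y0 (Q.tau y0 (Q.act y s)))⁻¹ := by group
        rw [e1]
        have hr : Ar (Q.rel y0) 1 (FreeGroup.of (Q.act y s, s) * FreeGroup.of (y, s)) := by
          have := Ar1 (wd Q.act (Q.act y s) [s, s]) (Or.inr (Or.inl ⟨_, s, hys, i1, rfl⟩))
          simp only [wd, mul_one] at this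
          rw [i2] at this
          exact this
        have := Amul _ 1 _ _ (Amul _ 1 _ _ (Acj _ _ (FreeGroup.of (y, s))⁻¹
          (Ainv _ _ (hB _ hy))) (Ainv _ _ hr))
          (Ainv 1 _ (Ar1 (wd Q.act y0 (Q.tau y0 (Q.act y s)))
            (Or.inr (Or.inr (Or.inr ⟨_, hys, rfl⟩)))))
        exact Am _ _ _ (by omega) this
  · have h1 := Ar1 (FreeGroup.of (y, s)) (Or.inl ⟨y, s, hg, rfl⟩)
    refine ⟨[], trivial, rfl, ?_, by simp, ?_⟩
    · rw [hmk, p1]
      cases b with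
      | true => rw [if_pos rfl, hPhi2 hg]
      | false => rw [if_neg (by decide), map_inv, hPhi2 hg, inv_one]
    · rw [hmk]
      simp only [wd, inv_one, mul_one]
      cases b with
      | true => rw [if_pos rfl]; exact Am _ _ _ (by omega) h1
      | false => rw [if_neg (by decide)]; exact Am _ _ _ (by omega) (Ainv _ _ h1)

theorem pd_prr : M_PRR := by
  intro prb trb arc tau _ Y S Q y0 T hT L
  obtain ⟨A0, Am, Ar1, Amul, Acj, Ainv, -⟩ := arc (Y × S) (Q.rel y0)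
  obtain ⟨b1, b2, b3, b4⟩ := trb Y S Q.lab Q.act
  obtain ⟨p1, p2, p3, p4, p5, p6⟩ := prb S Q.cm
  induction L with
  | nil =>
    refine ⟨[], trivial, rfl, ?_, by simp, ?_⟩
    · rw [p1]
      have : (FreeGroup.mk ([] : List ((Y × S) × Bool))) = 1 := rfl
      rw [this, map_one]
    · have : (FreeGroup.mk ([] : List ((Y × S) × Bool))) = 1 := rfl
      rw [this]
      simpa [wd] using A0
  | cons x L ih =>
    obtain ⟨c, c1, c2, c3, c4, c5⟩ := ih
    obtain ⟨d, d1, d2, d3, d4, d5⟩ := pd_prr_one prb trb arc tau Q y0 T hT x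
    have hx : (FreeGroup.mk (x :: L) : FreeGroup (Y × S)) = FreeGroup.mk [x] * FreeGroup.mk L := by
      rw [FreeGroup.mul_mk]; rfl
    refine ⟨d ++ c, ?_, ?_, ?_, ?_, ?_⟩
    · rw [b1, d2]; exact ⟨d1, c1⟩
    · rw [b2, d2]; exact c2
    · rw [p3, hx, map_mul, d3, c3]
    · simp only [List.length_append, List.length_cons]; nlinarith
    · rw [hx, b3, d2]
      have e1 : FreeGroup.mk [x] * FreeGroup.mk L * (wd Q.act y0 d * wd Q.act y0 c)⁻¹ =
          (FreeGroup.mk [x] * (FreeGroup.mk L * (wd Q.act y0 c)⁻¹) * (FreeGroup.mk [x])⁻¹) *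
            (FreeGroup.mk [x] * (wd Q.act y0 d)⁻¹) := by group
      rw [e1]
      have := Amul _ _ _ _ (Acj _ _ (FreeGroup.mk [x]) c5) d5
      refine Am _ _ _ ?_ this
      simp only [List.length_cons]; nlinarith

end Pool.Agent.H14.PD
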