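import Pool.Agent.H14.PD.Stmts

/-!
Project PD: QSW and SSQ.
-/

set_option autoImplicit false

namespace Pool.Agent.H14.PD

theorem pd_qsw : M_QSW := by
  intro trb Y S Q G _ q hq
  have h1 : ∀ y s, Q.lab y s → q (FreeGroup.of (y, s)) * q (FreeGroup.of (Q.act y s, s)) = 1 := by
    intro y s h
    have := hq (wd Q.act y [s, s]) (Or.inl ⟨y, s, h, rfl⟩)
    simp only [wd, map_mul, mul_one] at this
    exact this
  refine ⟨h1, ?_, ?_⟩
  · intro y s t hc htr hen
    obtain ⟨a1, a2, a3, a4, _⟩ := htr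
    simp only [en] at hen
    have b4 := Q.inv _ _ a4
    have b3 := Q.inv _ _ a3
    rw [hen] at b4
    -- b4 : lab y t ∧ act y t = y3
    refine ⟨⟨b4.1, ?_, trivial⟩, ?_, ?_⟩
    · rw [b4.2]; exact b3.1
    · simp only [en]
      rw [b4.2, b3.2]
    · have hr := hq (wd Q.act y [s, t, s, t]) (Or.inr ⟨y, s, t, hc, ⟨a1, a2, a3, a4, trivial⟩, hen, rfl⟩)
      simp only [wd, map_mul, mul_one] at hr ⊢
      have c3 := h1 _ _ a3
      have c4 := h1 _ _ a4
      rw [hen] at c4
      rw [b4.2]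
      have e3 : q (FreeGroup.of (Q.act (Q.act (Q.act y s) t) s, s)) =
          (q (FreeGroup.of (Q.act (Q.act y s) t, s)))⁻¹ := eq_inv_of_mul_eq_one_right c3
      have e4 : q (FreeGroup.of (y, t)) =
          (q (FreeGroup.of (Q.act (Q.act (Q.act y s) t) s, t)))⁻¹ := eq_inv_of_mul_eq_one_right c4
      rw [e3, e4, ← mul_inv_rev]
      rw [← mul_assoc] at hr
      exact eq_inv_of_mul_eq_one_left hr
  · intro y w
    obtain ⟨t1, t2, t3, t4⟩ := trb Y S Q.lab Q.act
    induction w generalizing y with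
    | nil => intro _; simp [wd, en]
    | cons s w ih =>
      intro h
      have a1 := ih _ h.2
      have a2 := t4 Q.inv _ _ h.2
      simp only [en, List.reverse_cons]
      rw [t3, map_mul, a1, a2.2]
      simp only [wd, map_mul, mul_one, mul_inv_rev]
      congr 1
      exact eq_inv_of_mul_eq_one_right (h1 y s h.1)

theorem pd_ssq : SSQ := by
  intro V S M a b y s t hc hs ht hy hys hyt hyst
  have i1 := M.lf.inv y s hs
  have i2 := M.lf.inv y t ht
  have q1 := M.lf.sq y s t hc hs ht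
  have q2 := M.lf.sq y t s (M.cm_symm _ _ hc) ht hs
  have e1 : M.lact (M.lact y s) t = M.lact (M.lact y t) s := q1.2
  have e2 : M.lact (M.lact y t) t = y := i2.2
  have i3 := M.lf.inv (M.lact y t) s q2.1
  have e3 : M.lact (M.lact (M.lact y s) t) s = M.lact y t := by
    rw [e1]; exact i3.2
  have l3 : M.lab (M.lact (M.lact y s) t).1 s := by
    rw [e1]; exact i3.1
  refine ⟨⟨⟨hs, hy, hys⟩, ⟨q1.1, hys, hyst⟩, ⟨l3, hyst, ?_⟩, ⟨?_, ?_, ?_⟩, trivial⟩, ?_⟩
  · rw [e3]; exact hyt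
  · change M.lab (M.lact (M.lact (M.lact y s) t) s).1 t
    rw [e3]; exact i2.1
  · change a ≤ (M.lact (M.lact (M.lact y s) t) s).2 ∧ (M.lact (M.lact (M.lact y s) t) s).2 ≤ b
    rw [e3]; exact hyt
  · change a ≤ (M.lact (M.lact (M.lact (M.lact y s) t) s) t).2 ∧
      (M.lact (M.lact (M.lact (M.lact y s) t) s) t).2 ≤ b
    rw [e3, e2]; exact hy
  · simp only [en]
    rw [e3, e2]

end Pool.Agent.H14.PD
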