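import Pool.Agent.H14.PD.Defs

/-!
Project PD (MP_822040_al): statements of the modules.  `XXX` is a statement, `M_XXX` is what the
module `XXX` proves (the statement from the listed earlier statements).
-/

set_option autoImplicit false

namespace Pool.Agent.H14.PD

/-! ## Block W: words -/

/-- facts about `pr` -/
def PRB : Prop := ∀ (S : Type) (cm : S → S → Prop),
  pr cm [] = 1 ∧
  (∀ s w, pr cm (s :: w) = io cm s * pr cm w) ∧
  (∀ u v, pr cm (u ++ v) = pr cm u * pr cm v) ∧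
  (∀ s, io cm s * io cm s = 1) ∧
  (∀ s t, cm s t → io cm s * io cm t = io cm t * io cm s) ∧
  (∀ w, pr cm w.reverse = (pr cm w)⁻¹)

/-- facts about trace equivalence -/
def TQB : Prop := ∀ (S : Type) (cm : S → S → Prop), (∀ s t, cm s t → cm t s) →
  (∀ u v, Tq cm u v → Tq cm v u) ∧
  (∀ u v a b, Tq cm u v → Tq cm (a ++ u ++ b) (a ++ v ++ b)) ∧
  (∀ u v, Tq cm u v → u.Perm v) ∧
  (∀ u v, Tq cm u v → Tq cm u.reverse v.reverse) ∧
  (∀ u v, Tq cm u v → pr cm u = pr cm v) ∧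
  (∀ s u, (∀ t ∈ u, cm s t) → Tq cm (s :: u) (u ++ [s])) ∧
  (∀ u v, (∀ s ∈ u, ∀ t ∈ v, cm s t) → Tq cm (u ++ v) (v ++ u))

/-- facts about reduced words -/
def RDB : Prop := ∀ (S : Type) (cm : S → S → Prop),
  (∀ a b c : List S, Rd cm (a ++ b ++ c) → Rd cm b) ∧
  (∀ w, Rd cm w → Rd cm w.reverse) ∧
  (∀ w, ¬ Rd cm w → ∃ (a u b : List S) (s : S), w = a ++ s :: (u ++ s :: b) ∧ ∀ t ∈ u, cm s t) ∧
  (∀ w : List S, w.length ≤ 1 → Rd cm w)

/-- reducedness is invariant under trace equivalence -/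
def RDT : Prop := ∀ (S : Type) (cm : S → S → Prop), (∀ s t, cm s t → cm t s) → (∀ s, ¬ cm s s) →
  ∀ u v, Tq cm u v → Rd cm u → Rd cm v

open Classical in
/-- remove a first letter `s` (up to commutations) -/
noncomputable def rem {S : Type} (cm : S → S → Prop) (s : S) : List S → Option (List S)
  | [] => none
  | t :: w => if t = s then some w else if cm s t then (rem cm s w).map (fun r => t :: r) else none

/-- facts about `rem` -/
def REM : Prop := ∀ (S : Type) (cm : S → S → Prop), (∀ s t, cm s t → cm t s) → (∀ s, ¬ cm s s) →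
  (∀ s w w', Tq cm w w' → (rem cm s w = none ∧ rem cm s w' = none) ∨
    ∃ r r', rem cm s w = some r ∧ rem cm s w' = some r' ∧ Tq cm r r') ∧
  (∀ s w r, rem cm s w = some r → ∃ a b, w = a ++ s :: b ∧ r = a ++ b ∧ ∀ t ∈ a, cm s t) ∧
  (∀ s a b, (∀ t ∈ a, cm s t) → rem cm s (a ++ s :: b) = some (a ++ b)) ∧
  (∀ s w, rem cm s w = none → ∀ a b, w = a ++ s :: b → ∃ t ∈ a, ¬ cm s t) ∧
  (∀ s t w w1 w2, cm s t → rem cm s w = some w1 → rem cm t w = some w2 →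
    ∃ w3, rem cm t w1 = some w3 ∧ rem cm s w2 = some w3) ∧
  (∀ s t w w2, cm s t → rem cm s w = none → rem cm t w = some w2 → rem cm s w2 = none)

/-- the word problem: reduced words with the same value are trace equivalent -/
def VDW : Prop := ∀ (S : Type) (cm : S → S → Prop), (∀ s t, cm s t → cm t s) → (∀ s, ¬ cm s s) →
  ∀ u v, Rd cm u → Rd cm v → pr cm u = pr cm v → Tq cm u v

/-- Levi's lemma -/
def LEV : Prop := ∀ (S : Type) (cm : S → S → Prop), (∀ s t, cm s t → cm t s) → (∀ s, ¬ cm s s) →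
  ∀ a b p q : List S, Tq cm (a ++ b) (p ++ q) → ∃ a1 a2 b1 b2 : List S,
    Tq cm a (a1 ++ a2) ∧ Tq cm b (b1 ++ b2) ∧ Tq cm p (a1 ++ b1) ∧ Tq cm q (a2 ++ b2) ∧
    ∀ s ∈ a2, ∀ t ∈ b1, cm s t

/-- the meet of two reduced words -/
def MEE : Prop := ∀ (S : Type) (cm : S → S → Prop), (∀ s t, cm s t → cm t s) → (∀ s, ¬ cm s s) →
  ∀ y z : List S, Rd cm y → Rd cm z → ∃ m y' z' : List S,
    Tq cm y (m ++ y') ∧ Tq cm z (m ++ z') ∧ Rd cm (y'.reverse ++ z')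

/-- the length function -/
def LEN : Prop := ∀ (S : Type) (cm : S → S → Prop), (∀ s t, cm s t → cm t s) → (∀ s, ¬ cm s s) →
  (∀ w, len cm (pr cm w) ≤ w.length) ∧
  (∀ w, Rd cm w → len cm (pr cm w) = w.length) ∧
  (∀ g h, len cm (g * h) ≤ len cm g + len cm h) ∧
  (∀ g, len cm g⁻¹ = len cm g) ∧
  (∀ g, ∃ w, Rd cm w ∧ pr cm w = g ∧ w.length = len cm g)

def M_REM : Prop := TQB → REM
def M_VDW : Prop := PRB → TQB → RDB → RDT → REM → VDW
def M_LEV : Prop := TQB → REM → LEV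
def M_MEE : Prop := TQB → RDB → RDT → MEE
def M_LEN : Prop := PRB → TQB → RDB → VDW → LEN

/-! ## Block G: traced words and hyperbolicity -/

/-- traced words, generalities -/
def TRB : Prop := ∀ (Y S : Type) (lab : Y → S → Prop) (act : Y → S → Y),
  (∀ y u v, Tr lab act y (u ++ v) ↔ Tr lab act y u ∧ Tr lab act (en act y u) v) ∧
  (∀ y u v, en act y (u ++ v) = en act (en act y u) v) ∧
  (∀ y u v, wd act y (u ++ v) = wd act y u * wd act (en act y u) v) ∧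
  ((∀ y s, lab y s → lab (act y s) s ∧ act (act y s) s = y) →
    ∀ y w, Tr lab act y w → Tr lab act (en act y w) w.reverse ∧ en act (en act y w) w.reverse = y)

/-- traced words in a complex -/
def TRC : Prop := ∀ (Y S : Type) (C : Cx Y S),
  (∀ y w w', Tq C.cm w w' → Tr C.lab C.act y w →
    Tr C.lab C.act y w' ∧ en C.act y w' = en C.act y w) ∧
  (∀ y a u b s, (∀ t ∈ u, C.cm s t) → Tr C.lab C.act y (a ++ s :: (u ++ s :: b)) →
    Tr C.lab C.act y (a ++ u ++ b) ∧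
      en C.act y (a ++ u ++ b) = en C.act y (a ++ s :: (u ++ s :: b))) ∧
  (∀ y w, Tr C.lab C.act y w → ∃ w', Rd C.cm w' ∧ Tr C.lab C.act y w' ∧ pr C.cm w' = pr C.cm w ∧
    en C.act y w' = en C.act y w ∧ w'.length ≤ w.length ∧ ∀ s ∈ w', s ∈ w) ∧
  (∀ y u v, Tr C.lab C.act y u → Tr C.lab C.act y v → pr C.cm u = pr C.cm v →
    en C.act y u = en C.act y v)

/-- thin triangles -/
def THN : Prop := ∀ (Y S : Type) (C : Cx Y S) (N : ℕ), Grid C.cm C.lab C.act N →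
  ∀ (x : Y) (y z a b : List S), Tr C.lab C.act x y → Tr C.lab C.act x z → Rd C.cm y → Rd C.cm z →
    Rd C.cm (a ++ b) → pr C.cm y * pr C.cm (a ++ b) = pr C.cm z →
    ∃ c e : List S, (Tq C.cm y (c ++ e) ∨ Tq C.cm z (c ++ e)) ∧
      len C.cm ((pr C.cm c)⁻¹ * (pr C.cm y * pr C.cm a)) ≤ N

/-- a closed local geodesic is trivial -/
def LOC : Prop := ∀ (Y S : Type) (C : Cx Y S), Grid C.cm C.lab C.act 6 →
  ∀ (x : Y) (w : List S), Tr C.lab C.act x w → pr C.cm w = 1 →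
    (∀ a u b : List S, w = a ++ u ++ b → u.length ≤ 26 → Rd C.cm u) → w = []

/-- Dehn's algorithm -/
def DEH : Prop := ∀ (Y S : Type) (C : Cx Y S), Grid C.cm C.lab C.act 6 →
  ∀ (x : Y) (w : List S), Tr C.lab C.act x w → pr C.cm w = 1 → w ≠ [] →
    ∃ (a u b : List S) (s : S), w = a ++ s :: (u ++ s :: b) ∧ (∀ t ∈ u, C.cm s t) ∧ u.length ≤ 24

/-- a path of length `2 ^ k` passes at distance `6 k` of each vertex of a geodesic -/
def LOG : Prop := ∀ (Y S : Type) (C : Cx Y S), Grid C.cm C.lab C.act 6 →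
  ∀ (k : ℕ) (x : Y) (p a b : List S), Tr C.lab C.act x p → p.length ≤ 2 ^ k →
    Rd C.cm (a ++ b) → Tr C.lab C.act x (a ++ b) → pr C.cm (a ++ b) = pr C.cm p →
    ∃ p1 p2 : List S, p = p1 ++ p2 ∧ len C.cm ((pr C.cm a)⁻¹ * pr C.cm p1) ≤ 6 * k

def M_TRC : Prop := PRB → TQB → RDB → RDT → VDW → TRB → TRC
def M_THN : Prop := PRB → TQB → RDB → RDT → VDW → LEV → MEE → LEN → TRB → TRC → THN
def M_LOC : Prop := PRB → TQB → RDB → LEN → TRB → TRC → THN → LOC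
def M_DEH : Prop := RDB → LOC → DEH
def M_LOG : Prop := PRB → TQB → RDB → RDT → LEN → TRB → TRC → THN → LOG

/-! ## Block A: presentations and areas -/

/-- calculus of areas -/
def ARC : Prop := ∀ (X : Type) (R : Set (FreeGroup X)),
  Ar R 0 1 ∧
  (∀ n n' w, n ≤ n' → Ar R n w → Ar R n' w) ∧
  (∀ r ∈ R, Ar R 1 r) ∧
  (∀ n n' u v, Ar R n u → Ar R n' v → Ar R (n + n') (u * v)) ∧
  (∀ n u g, Ar R n u → Ar R n (g * u * g⁻¹)) ∧
  (∀ n u, Ar R n u → Ar R n u⁻¹) ∧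
  (∀ w, w ∈ Subgroup.normalClosure R ↔ ∃ n, Ar R n w)

/-- the chosen paths -/
def TAU : Prop := ∀ (Y S : Type) (Q : Sq Y S) (y0 : Y),
  Q.tau y0 y0 = [] ∧
  (∀ y, Tr Q.lab Q.act y0 (Q.tau y0 y)) ∧
  (∀ y, Q.Rc y0 y → en Q.act y0 (Q.tau y0 y) = y) ∧
  Q.Rc y0 y0 ∧
  (∀ y w, Q.Rc y0 y → Tr Q.lab Q.act y w → Q.Rc y0 (en Q.act y w)) ∧
  (∀ y s, Q.lab y s → Q.Rc y0 (Q.act y s) → Q.Rc y0 y) ∧
  (Set.Finite {y | Q.Rc y0 y} → ∃ T : ℕ, ∀ y, (Q.tau y0 y).length ≤ T)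

/-- the labelling homomorphism -/
def PHI : Prop := ∀ (Y S : Type) (Q : Sq Y S) (y0 : Y),
  (∀ y w, Q.Rc y0 y → Tr Q.lab Q.act y w →
    Q.Phi y0 (wd Q.act y w) =
      pr Q.cm (Q.tau y0 y) * pr Q.cm w * (pr Q.cm (Q.tau y0 (en Q.act y w)))⁻¹) ∧
  (∀ r ∈ Q.rel y0, Q.Phi y0 r = 1) ∧
  (∀ w ∈ Subgroup.normalClosure (Q.rel y0), Q.Phi y0 w = 1) ∧
  (∀ u : FreeGroup (Y × S), ∃ c : List S, Tr Q.lab Q.act y0 c ∧ en Q.act y0 c = y0 ∧
    pr Q.cm c = Q.Phi y0 u)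

/-- every word is a closed path at linear cost -/
def PRR : Prop := ∀ (Y S : Type) (Q : Sq Y S) (y0 : Y) (T : ℕ), (∀ y, (Q.tau y0 y).length ≤ T) →
  ∀ L : List ((Y × S) × Bool), ∃ c : List S, Tr Q.lab Q.act y0 c ∧ en Q.act y0 c = y0 ∧
    pr Q.cm c = Q.Phi y0 (FreeGroup.mk L) ∧ c.length ≤ (2 * T + 1) * L.length ∧
    Ar (Q.rel y0) ((T + 3) * L.length) (FreeGroup.mk L * (wd Q.act y0 c)⁻¹)

/-- cost of a deletion -/
def DEA : Prop := ∀ (Y S : Type) (C : Cx Y S) (y0 y : Y) (s : S) (u : List S), C.Rc y0 y →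
  (∀ t ∈ u, C.cm s t) → Tr C.lab C.act y (s :: (u ++ [s])) →
  Ar (C.rel y0) (3 * u.length + 1) (wd C.act y (s :: (u ++ [s])) * (wd C.act y u)⁻¹)

/-- the ambient group: linear isoperimetric inequality -/
def AMB : Prop := ∀ (Y S : Type) (C : Cx Y S) (y0 : Y) (T : ℕ), Grid C.cm C.lab C.act 6 →
  (∀ y, (C.tau y0 y).length ≤ T) →
  ∃ K : ℕ, ∀ L : List ((Y × S) × Bool), C.Phi y0 (FreeGroup.mk L) = 1 →
    Ar (C.rel y0) (K * L.length) (FreeGroup.mk L)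

def M_TAU : Prop := TRB → TAU
def M_PHI : Prop := PRB → TRB → TAU → PHI
def M_PRR : Prop := PRB → TRB → ARC → TAU → PHI → PRR
def M_DEA : Prop := TRB → ARC → TAU → DEA
def M_AMB : Prop := PRB → TRB → TRC → DEH → ARC → TAU → PHI → PRR → DEA → AMB

/-! ## Block B: simple connectivity of slabs -/

/-- projection of traced words -/
def SLP : Prop := ∀ (V S : Type) (M : Mc V S) (a b : ℤ),
  (∀ (y : V × ℤ) (w : List S), (en M.lact y w).1 = en M.act y.1 w) ∧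
  (∀ (y : V × ℤ) (w : List S), Tr (M.slab a b).lab M.lact y w → Tr M.lf.lab M.lact y w) ∧
  (∀ (y : V × ℤ) (w : List S), Tr M.lf.lab M.lact y w ↔ Tr M.lab M.act y.1 w) ∧
  (∀ (y : V × ℤ) (w : List S), Tr M.lf.lab M.lact y w → (∀ s ∈ w, ¬ M.big s) →
    |(en M.lact y w).2 - y.2| ≤ w.length) ∧
  (∀ (y : V × ℤ) (w : List S), Tr M.lf.lab M.lact y w → |(en M.lact y w).2 - y.2| ≤ M.m * w.length) ∧
  (∀ (y : V × ℤ) (u v : List S), M.Sl a b y (u ++ v) ↔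
    M.Sl a b y u ∧ M.Sl a b (en M.lact y u) v) ∧
  (∀ (y : V × ℤ) (w : List S), M.Sl a b y w → a ≤ (en M.lact y w).2 ∧ (en M.lact y w).2 ≤ b) ∧
  (∀ (y : V × ℤ) (w : List S), M.Sl a b y w → M.Sl a b (en M.lact y w) w.reverse) ∧
  (∀ (a' b' : ℤ) (y : V × ℤ) (w : List S), a' ≤ a → b ≤ b' → M.Sl a b y w → M.Sl a' b' y w)

def M_SLP : Prop := TRB → SLP

/-- homotopies seen through a homomorphism -/
def QSW : Prop := ∀ (Y S : Type) (Q : Sq Y S) (G : Type) [Group G] (q : FreeGroup (Y × S) →* G),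
  (∀ r ∈ Q.nrel, q r = 1) →
  (∀ y s, Q.lab y s → q (FreeGroup.of (y, s)) * q (FreeGroup.of (Q.act y s, s)) = 1) ∧
  (∀ y s t, Q.cm s t → Tr Q.lab Q.act y [s, t, s, t] → en Q.act y [s, t, s, t] = y →
    Tr Q.lab Q.act y [t, s] ∧ en Q.act y [t, s] = en Q.act y [s, t] ∧
      q (wd Q.act y [s, t]) = q (wd Q.act y [t, s])) ∧
  (∀ y w, Tr Q.lab Q.act y w → q (wd Q.act (en Q.act y w) w.reverse) = (q (wd Q.act y w))⁻¹)

/-- squares in a slab -/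
def SSQ : Prop := ∀ (V S : Type) (M : Mc V S) (a b : ℤ) (y : V × ℤ) (s t : S),
  M.cm s t → M.lab y.1 s → M.lab y.1 t → (a ≤ y.2 ∧ y.2 ≤ b) →
  (a ≤ (M.lact y s).2 ∧ (M.lact y s).2 ≤ b) → (a ≤ (M.lact y t).2 ∧ (M.lact y t).2 ≤ b) →
  (a ≤ (M.lact (M.lact y s) t).2 ∧ (M.lact (M.lact y s) t).2 ≤ b) →
  Tr (M.slab a b).lab M.lact y [s, t, s, t] ∧ en M.lact y [s, t, s, t] = y

/-- the path from `y s` to `y t` around the far corner of the square -/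
def Kp {V S : Type} (M : Mc V S) (y : V × ℤ) (s t : S) : FreeGroup ((V × ℤ) × S) :=
  wd M.lact (M.lact y s) [t, s]

/-- the three far faces of a cube -/
def TRI : Prop := ∀ (V S : Type) (M : Mc V S) (a b : ℤ) (G : Type) [Group G]
  (q : FreeGroup ((V × ℤ) × S) →* G), (∀ r ∈ (M.slab a b).nrel, q r = 1) →
  ∀ (y : V × ℤ) (r s t : S), M.cm r s → M.cm s t → M.cm r t →
    M.lab y.1 r → M.lab y.1 s → M.lab y.1 t →
    M.eta y.1 r < 0 → M.eta y.1 s < 0 → M.eta y.1 t < 0 → y.2 ≤ b + 1 →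
    a ≤ y.2 + M.eta y.1 r + M.eta y.1 s + M.eta y.1 t →
    q (Kp M y r s) * q (Kp M y s t) = q (Kp M y r t)

/-- the cocycle on a descending link is a coboundary -/
def COC : Prop := ∀ (V S : Type) (M : Mc V S) (a b : ℤ) (G : Type) [Group G]
  (q : FreeGroup ((V × ℤ) × S) →* G), (∀ r ∈ (M.slab a b).nrel, q r = 1) →
  (M.m : ℤ) + 1 ≤ b - a → ∀ y : V × ℤ, y.2 = b + 1 →
  Lk M.cm (fun s => M.lab y.1 s ∧ M.eta y.1 s < 0) →
  ∃ c : S → G, ∀ s t, M.cm s t → M.lab y.1 s → M.eta y.1 s < 0 → M.lab y.1 t → M.eta y.1 t < 0 →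
    c s = q (Kp M y s t) * c t

/-- the retraction of a slab onto the slab without the top level -/
def RET : Prop := ∀ (V S : Type) (M : Mc V S) (a b : ℤ), M.LkDn → (M.m : ℤ) + 1 ≤ b - a →
  ∃ rho : FreeGroup ((V × ℤ) × S) →*
      (FreeGroup ((V × ℤ) × S) ⧸ Subgroup.normalClosure (M.slab a b).nrel),
    (∀ r ∈ (M.slab a (b + 1)).nrel, rho r = 1) ∧
    (∀ y s, (M.slab a b).lab y s → rho (FreeGroup.of (y, s)) =
      QuotientGroup.mk' (Subgroup.normalClosure (M.slab a b).nrel) (FreeGroup.of (y, s)))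

/-- words written with the darts of the slab -/
def darts {V S : Type} (M : Mc V S) (a b : ℤ) : Subgroup (FreeGroup ((V × ℤ) × S)) :=
  Subgroup.closure {x | ∃ y s, (M.slab a b).lab y s ∧ x = FreeGroup.of (y, s)}

/-- removing the top level -/
def RTB : Prop := ∀ (V S : Type) (M : Mc V S) (a b : ℤ), M.LkDn → (M.m : ℤ) + 1 ≤ b - a →
  ∀ w ∈ Subgroup.normalClosure (M.slab a (b + 1)).nrel, w ∈ darts M a b →
    w ∈ Subgroup.normalClosure (M.slab a b).nrel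

/-- removing the bottom level -/
def FLP : Prop := ∀ (V S : Type) (M : Mc V S) (a b : ℤ), M.LkUp → (M.m : ℤ) + 1 ≤ b - a →
  ∀ w ∈ Subgroup.normalClosure (M.slab (a - 1) b).nrel, w ∈ darts M a b →
    w ∈ Subgroup.normalClosure (M.slab a b).nrel

/-- deleting a cancelling pair inside a wide slab -/
def DEL : Prop := ∀ (V S : Type) (M : Mc V S) (a b : ℤ) (G : Type) [Group G]
  (q : FreeGroup ((V × ℤ) × S) →* G), (∀ r ∈ (M.slab a b).nrel, q r = 1) →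
  ∀ (y : V × ℤ) (s : S) (u : List S), (∀ t ∈ u, M.cm s t) →
    Tr M.lf.lab M.lact y (s :: (u ++ [s])) →
    a + M.m * (u.length + 2) ≤ y.2 → y.2 ≤ b - M.m * (u.length + 2) →
    q (wd M.lact y (s :: (u ++ [s]))) = q (wd M.lact y u)

/-- closed paths with trivial label are null-homotopic in a wide slab -/
def BIG : Prop := ∀ (V S : Type) (M : Mc V S) (y : V × ℤ) (w : List S),
  Tr M.lf.lab M.lact y w → pr M.cm w = 1 → ∀ a b : ℤ,
    a + M.m * (w.length + 2) ≤ y.2 → y.2 ≤ b - M.m * (w.length + 2) →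
    wd M.lact y w ∈ Subgroup.normalClosure (M.slab a b).nrel

/-- closed paths of a slab with trivial label are null-homotopic in the slab -/
def SLB : Prop := ∀ (V S : Type) (M : Mc V S), M.LkUp → M.LkDn → ∀ a b : ℤ,
  (M.m : ℤ) + 1 ≤ b - a → ∀ (y : V × ℤ) (w : List S), Tr (M.slab a b).lab M.lact y w →
    pr M.cm w = 1 → wd M.lact y w ∈ Subgroup.normalClosure (M.slab a b).nrel

/-- the homotopy relators are consequences of the relators -/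
def SLN : Prop := ∀ (Y S : Type) (Q : Sq Y S) (y0 : Y),
  Subgroup.normalClosure Q.nrel ≤ Subgroup.normalClosure (Q.rel y0)

/-- the presentation of the slab group -/
def SLK : Prop := ∀ (V S : Type) [Finite V] (M : Mc V S), M.LkUp → M.LkDn → ∀ (a b : ℤ) (y0 : V × ℤ),
  (M.m : ℤ) + 1 ≤ b - a → ∀ w : FreeGroup ((V × ℤ) × S),
    M.sPhi a b y0 w = 1 ↔ w ∈ Subgroup.normalClosure ((M.slab a b).rel y0)

def M_QSW : Prop := TRB → QSW
def M_TRI : Prop := QSW → SSQ → TRI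
def M_COC : Prop := QSW → SSQ → TRI → COC
def M_RET : Prop := QSW → SSQ → COC → RET
def M_RTB : Prop := RET → RTB
def M_FLP : Prop := RTB → FLP
def M_DEL : Prop := TRB → QSW → SSQ → DEL
def M_BIG : Prop := PRB → TQB → RDB → VDW → TRB → TRC → SLP → DEL → BIG
def M_SLB : Prop := TRB → SLP → RTB → FLP → BIG → SLB
def M_SLN : Prop := TRB → TAU → SLN
def M_SLK : Prop := TRB → SLP → ARC → TAU → PHI → PRR → SLB → SLN → SLK

/-! ## Block C: raising paths -/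

/-- raising a notch -/
def NOT : Prop := ∀ (V S : Type) (M : Sd V S) (tu B : ℤ), tu + M.m ≤ B →
  ∀ (n : ℕ) (y : V × ℤ) (a a' : S), n ≤ M.m → y.2 = tu - n → M.big a → M.big a' →
    M.lab y.1 a → M.lab y.1 a' → 0 < M.eta y.1 a → 0 < M.eta y.1 a' →
    ∃ N : List S, M.Sl tu B (M.lact y a) N ∧ en M.lact (M.lact y a) N = M.lact y a' ∧
      pr M.cm N = io M.cm a * io M.cm a' ∧ N.length ≤ 2 * n + 2 ∧
      ∀ s ∈ N, M.big s → s = a ∨ s = a'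

/-- raising a path -/
def RAI : Prop := ∀ (V S : Type) (M : Sd V S) (b : Bool) (h B : ℤ), h + 2 * M.m ≤ B →
  ∀ (w : List S) (y : V × ℤ), M.Sl h B y w → h + M.m ≤ y.2 → h + M.m ≤ (en M.lact y w).2 →
    M.cp b y.1 → (∀ s ∈ w, M.big s → M.side s = b) →
    ∃ w' : List S, M.Sl (h + M.m) B y w' ∧ pr M.cm w' = pr M.cm w ∧
      w'.length ≤ (2 * M.m + 6) * w.length ∧ ∀ s ∈ w', M.big s → M.side s = b

/-- the raised paths -/
def ALP : Prop := ∀ (V S : Type) (M : Sd V S) (b : Bool) (r : ℕ),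
  ∃ w : List S, M.Sl 0 M.m (M.o, 0) w ∧ pr M.cm w = pr M.cm (M.vdn r ++ M.vup r) ∧
    w.length ≤ 2 * (r * M.m) * (2 * M.m + 6) ^ r ∧ ∀ s ∈ w, M.big s → M.side s = b

def M_NOT : Prop := PRB → TRB → NOT
def M_RAI : Prop := PRB → TRB → NOT → RAI
def M_ALP : Prop := TRB → TRC → SLP → RAI → ALP

/-! ## Block D: the lower bound -/

/-- crossed homomorphisms of free groups -/
def DER : Prop := ∀ (X W : Type) [Group W] (Ph : FreeGroup X →* W) (dl : X → W → ℤ),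
  ∃ E : FreeGroup X → W → ℤ, (∀ g, E 1 g = 0) ∧
    (∀ u v g, E (u * v) g = E u g + E v (g * Ph u)) ∧ ∀ x g, E (FreeGroup.of x) g = dl x g

/-- a crossed homomorphism bounds areas from below -/
def DEB : Prop := ∀ (X W : Type) [Group W] (Ph : FreeGroup X →* W) (E : FreeGroup X → W → ℤ),
  (∀ u v g, E (u * v) g = E u g + E v (g * Ph u)) →
  ∀ R : Set (FreeGroup X), (∀ r ∈ R, Ph r = 1) →
  (∀ r ∈ R, ∀ u, |E r (Ph u)| ≤ 1) → ∀ N w, Ar R N w → |E w 1| ≤ N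

/-- facts about `psum` -/
def PSB : Prop := ∀ (V S : Type) (M : Sd V S) (lm : Wg M.cm → ℤ),
  (∀ g x u v, psum M lm g x (u ++ v) =
    psum M lm g x u + psum M lm (g * pr M.cm u) (en M.act x u) v) ∧
  (∀ g x w, Tr M.lab M.act x w → psum M lm g x (w ++ w.reverse) = 0) ∧
  (∀ g x w, (∀ s ∈ w, ¬ M.sp s) → psum M lm g x w = 0)

/-- `psum` of a square -/
def PSS : Prop := ∀ (V S : Type) (M : Sd V S) (lm : Wg M.cm → ℤ) (g : Wg M.cm) (x : V) (s t : S),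
  M.cm s t → Tr M.lab M.act x [s, t, s, t] →
  (∀ u ∈ [[], [s], [t], [s, t]], ∀ r ∈ [s, t], ¬ M.big r →
    |lm (g * pr M.cm u * io M.cm r) - lm (g * pr M.cm u)| ≤ 1) →
  |psum M lm g x [s, t, s, t]| ≤ 1

/-- the truncated distance is Lipschitz -/
def LIP : Prop := ∀ (V S : Type) (M : Sd V S) (b : ℤ) (B : ℕ),
  (∀ g, 0 ≤ lam M b B g ∧ lam M b B g ≤ B) ∧
  (0 ≤ b → lam M b B 1 = 0) ∧
  (∀ w s, M.Sl 0 b (M.o, 0) (w ++ [s]) → ¬ M.big s →
    |lam M b B (pr M.cm w * io M.cm s) - lam M b B (pr M.cm w)| ≤ 1)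

/-- the end points of the exponentially distorted path are far apart -/
def DST : Prop := ∀ (V S : Type) (M : Sd V S) (b : ℤ) (r k : ℕ), 6 * k < r * M.m →
  (2 : ℤ) ^ k ≤ lam M b (2 ^ k) (pr M.cm (M.vdn r ++ M.vup r))

/-- the potential changes slowly along paths on side `true` -/
def POT : Prop := ∀ (V S : Type) (M : Sd V S) (b : ℤ) (B : ℕ) (w : List S), 0 ≤ b →
  M.Sl 0 b (M.o, 0) w → (∀ s ∈ w, M.big s → M.side s = true) →
  (M.Yv (en M.act M.o w) →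
    |psum M (lam M b B) 1 M.o w + lam M b B (pr M.cm w)| ≤ w.length) ∧
  (¬ M.Yv (en M.act M.o w) → |psum M (lam M b B) 1 M.o w| ≤ w.length)

/-- the crossed homomorphism of a slab -/
def EWD : Prop := ∀ (V S : Type) (M : Sd V S) (b : ℤ) (lm : Wg M.cm → ℤ),
  ∃ E : FreeGroup ((V × ℤ) × S) → Wg M.cm → ℤ,
    (∀ u v g, E (u * v) g = E u g + E v (g * M.sPhi 0 b (M.o, 0) u)) ∧
    (∀ y w g, (M.slab 0 b).Rc (M.o, 0) y → Tr (M.slab 0 b).lab M.lact y w →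
      E (wd M.lact y w) g = psum M lm g M.o ((M.slab 0 b).tau (M.o, 0) y ++ w ++
        ((M.slab 0 b).tau (M.o, 0) (en M.lact y w)).reverse)) ∧
    (∀ y s g, ¬ ((M.slab 0 b).Rc (M.o, 0) y ∧ (M.slab 0 b).lab y s) →
      E (FreeGroup.of (y, s)) g = 0)

/-- the crossed homomorphism is bounded by one on relators -/
def EBD : Prop := ∀ (V S : Type) (M : Sd V S) (b : ℤ) (B : ℕ)
  (E : FreeGroup ((V × ℤ) × S) → Wg M.cm → ℤ), 0 ≤ b →
  (∀ u v g, E (u * v) g = E u g + E v (g * M.sPhi 0 b (M.o, 0) u)) →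
  (∀ y w g, (M.slab 0 b).Rc (M.o, 0) y → Tr (M.slab 0 b).lab M.lact y w →
    E (wd M.lact y w) g = psum M (lam M b B) g M.o ((M.slab 0 b).tau (M.o, 0) y ++ w ++
      ((M.slab 0 b).tau (M.o, 0) (en M.lact y w)).reverse)) →
  (∀ y s g, ¬ ((M.slab 0 b).Rc (M.o, 0) y ∧ (M.slab 0 b).lab y s) →
    E (FreeGroup.of (y, s)) g = 0) →
  ∀ r ∈ (M.slab 0 b).rel (M.o, 0), ∀ u, |E r (M.sPhi 0 b (M.o, 0) u)| ≤ 1

/-- the lower bound for the area -/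
def LOW : Prop := ∀ (V S : Type) (M : Sd V S) (b : ℤ) (B : ℕ) (al be : List S) (N : ℕ), 0 ≤ b →
  M.Sl 0 b (M.o, 0) al → M.Sl 0 b (M.o, 0) be → pr M.cm al = pr M.cm be →
  M.Yv (en M.act M.o be) → (∀ s ∈ al, ¬ M.sp s) → (∀ s ∈ be, M.big s → M.side s = true) →
  Ar ((M.slab 0 b).rel (M.o, 0)) N (wd M.lact (M.o, 0) al * (wd M.lact (M.o, 0) be)⁻¹) →
  lam M b B (pr M.cm be) ≤ N + be.length

def M_PSB : Prop := PRB → TRB → PSB
def M_PSS : Prop := PRB → PSS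
def M_LIP : Prop := PRB → TRB → TRC → SLP → LIP
def M_DST : Prop := PRB → TRB → RDB → LEN → TRC → LOG → SLP → DST
def M_POT : Prop := PRB → TRB → SLP → LIP → PSB → POT
def M_EWD : Prop := PRB → TRB → TAU → SLP → DER → PSB → EWD
def M_EBD : Prop := PRB → TRB → TAU → PHI → SLP → QSW → PSB → PSS → LIP → EBD
def M_LOW : Prop := PRB → TRB → TRC → TAU → PHI → SLP → DEB → PSB → POT → EWD → EBD → LOW

/-! ## Block F: finiteness, numbers, transfer -/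

/-- the statement to be proved, for one `d` -/
def Goal (d : ℕ) : Prop := ∃ (k : ℕ) (R : Finset (FreeGroup (Fin k))),
    (∃ K : ℕ, ∀ w ∈ Subgroup.normalClosure (R : Set (FreeGroup (Fin k))),
      ∃ L : List (FreeGroup (Fin k) × FreeGroup (Fin k)),
        (∀ p ∈ L, p.2 ∈ R ∨ p.2⁻¹ ∈ R) ∧
        (L.map (fun p => p.1 * p.2 * p.1⁻¹)).prod = w ∧
        L.length ≤ K * w.toWord.length + K) ∧
    ∃ (m : ℕ) (g : Fin m → PresentedGroup (R : Set (FreeGroup (Fin k))))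
      (R' : Finset (FreeGroup (Fin m))),
      (FreeGroup.lift g).ker = Subgroup.normalClosure (R' : Set (FreeGroup (Fin m))) ∧
      ∃ C : ℕ, ∀ n : ℕ, ∃ w ∈ Subgroup.normalClosure (R' : Set (FreeGroup (Fin m))),
        w.toWord.length ≤ C * n + C ∧
        ∀ L : List (FreeGroup (Fin m) × FreeGroup (Fin m)),
          (∀ p ∈ L, p.2 ∈ R' ∨ p.2⁻¹ ∈ R') →
          (L.map (fun p => p.1 * p.2 * p.1⁻¹)).prod = w →
          n ^ d ≤ C * L.length + C * n + C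

/-- from finite types to `Fin k` -/
def TFA : Prop := ∀ (d : ℕ) (X X' : Type) [Finite X] [Finite X'] (R : Set (FreeGroup X))
  (R' : Set (FreeGroup X')) (K C : ℕ) (Th : FreeGroup X' →* FreeGroup X), R.Finite → R'.Finite →
  (∀ L : List (X × Bool), FreeGroup.mk L ∈ Subgroup.normalClosure R →
    Ar R (K * L.length) (FreeGroup.mk L)) →
  (∀ w, Th w ∈ Subgroup.normalClosure R ↔ w ∈ Subgroup.normalClosure R') →
  (∀ n : ℕ, ∃ L : List (X' × Bool), L.length ≤ C * n + C ∧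
    FreeGroup.mk L ∈ Subgroup.normalClosure R' ∧
    ∀ N : ℕ, Ar R' N (FreeGroup.mk L) → n ^ d ≤ C * N + C * n + C) →
  Goal d

/-- from a set of generators with a finite essential part to finite types -/
def TFB : Prop := ∀ (d : ℕ) (X X' : Type) [Finite X] (A : Set X') (R : Set (FreeGroup X))
  (R' : Set (FreeGroup X')) (K C : ℕ) (Th : FreeGroup X' →* FreeGroup X), R.Finite → A.Finite →
  (∀ r ∈ R', (∃ x, x ∉ A ∧ r = FreeGroup.of x) ∨ r ∈ Subgroup.closure (FreeGroup.of '' A)) →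
  Set.Finite {r | r ∈ R' ∧ r ∈ Subgroup.closure (FreeGroup.of '' A)} →
  (∀ L : List (X × Bool), FreeGroup.mk L ∈ Subgroup.normalClosure R →
    Ar R (K * L.length) (FreeGroup.mk L)) →
  (∀ w, Th w ∈ Subgroup.normalClosure R ↔ w ∈ Subgroup.normalClosure R') →
  (∀ n : ℕ, ∃ L : List (X' × Bool), (∀ x ∈ L, x.1 ∈ A) ∧ L.length ≤ C * n + C ∧
    FreeGroup.mk L ∈ Subgroup.normalClosure R' ∧
    ∀ N : ℕ, Ar R' N (FreeGroup.mk L) → n ^ d ≤ C * N + C * n + C) →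
  Goal d

/-- the relators are finitely many -/
def FIA : Prop := ∀ (Y S : Type) [Finite Y] [Finite S] (Q : Sq Y S) (y0 : Y), (Q.rel y0).Finite

/-- the essential relators of a slab are finitely many -/
def FIB : Prop := ∀ (V S : Type) [Finite V] [Finite S] (M : Mc V S) (a b : ℤ) (y0 : V × ℤ),
  (a ≤ y0.2 ∧ y0.2 ≤ b) →
  Set.Finite {x : (V × ℤ) × S | a ≤ x.1.2 ∧ x.1.2 ≤ b} ∧
  (∀ r ∈ (M.slab a b).rel y0,
    (∃ x, x ∉ {x : (V × ℤ) × S | a ≤ x.1.2 ∧ x.1.2 ≤ b} ∧ r = FreeGroup.of x) ∨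
      r ∈ Subgroup.closure (FreeGroup.of '' {x : (V × ℤ) × S | a ≤ x.1.2 ∧ x.1.2 ≤ b})) ∧
  Set.Finite {r | r ∈ (M.slab a b).rel y0 ∧
    r ∈ Subgroup.closure (FreeGroup.of '' {x : (V × ℤ) × S | a ≤ x.1.2 ∧ x.1.2 ≤ b})}

/-- the homomorphism from the slab group to the ambient group -/
def THT : Prop := ∀ (V S : Type) (M : Mc V S) (a b : ℤ) (y0 : V × ℤ),
  ∃ Th : FreeGroup ((V × ℤ) × S) →* FreeGroup (V × S),
    ∀ w, M.Phi y0.1 (Th w) = M.sPhi a b y0 w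

/-- the choice of the parameters -/
def NUM : Prop := ∀ d : ℕ, ∃ mu C : ℕ, 1 ≤ mu ∧ ∀ n : ℕ, ∃ r k : ℕ,
  4 * (r * (24 * mu)) * (2 * (24 * mu) + 6) ^ r ≤ n ∧
  ((r = 0 ∧ n ^ d ≤ C) ∨ (6 * k < r * (24 * mu) ∧ n ^ d ≤ C * 2 ^ k))

/-- the words with large area -/
def FNL : Prop := ∀ (V S : Type) (M : Sd V S) (r k : ℕ), ∃ L : List (((V × ℤ) × S) × Bool),
  (∀ x ∈ L, 0 ≤ x.1.1.2 ∧ x.1.1.2 ≤ (M.m : ℤ) + 1) ∧
  L.length ≤ 4 * (r * M.m) * (2 * M.m + 6) ^ r ∧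
  M.sPhi 0 ((M.m : ℤ) + 1) (M.o, 0) (FreeGroup.mk L) = 1 ∧
  (6 * k < r * M.m → ∀ N : ℕ, Ar ((M.slab 0 ((M.m : ℤ) + 1)).rel (M.o, 0)) N (FreeGroup.mk L) →
    2 ^ k ≤ N + 4 * (r * M.m) * (2 * M.m + 6) ^ r)

/-- everything together, for a complex with given `m` -/
def FIN : Prop := ∀ (d mu C : ℕ), 1 ≤ mu → (∀ n : ℕ, ∃ r k : ℕ,
    4 * (r * (24 * mu)) * (2 * (24 * mu) + 6) ^ r ≤ n ∧
    ((r = 0 ∧ n ^ d ≤ C) ∨ (6 * k < r * (24 * mu) ∧ n ^ d ≤ C * 2 ^ k))) →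
  ∀ (V S : Type) [Finite V] [Finite S] (M : Sd V S), M.m = 24 * mu → Goal d

def M_TFB : Prop := TFA → TFB
def M_FIB : Prop := TRB → TAU → SLP → FIB
def M_THT : Prop := PRB → TRB → TAU → PHI → SLP → THT
def M_FNL : Prop := PRB → TRB → TRC → TAU → PHI → SLP → ALP → LIP → DST → LOW → FNL
def M_FIN : Prop := ARC → TAU → PHI → AMB → SLK → TFB → FIA → FIB → THT → FNL → FIN

/-! ## Block X: the concrete complex -/

def XIN : Prop := ∀ (P Q : Type) (Z : Sz P Q) (x : Xv P Q) (s : Xs P Q),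
  xlab Z x s → xlab Z (xact Z x s) s ∧ xact Z (xact Z x s) s = x

def XCM : Prop := ∀ (P Q : Type) (Z : Sz P Q),
  (∀ s t, xcm Z s t → xcm Z t s) ∧ (∀ s, ¬ xcm Z s s) ∧
  (∀ s t : Xs P Q, xbig s → xbig t → ¬ xcm Z s t) ∧
  (∀ s t : Xs P Q, s.1 = t.1 → ¬ xcm Z s t)

def XSQ : Prop := ∀ (P Q : Type) (Z : Sz P Q) (x : Xv P Q) (s t : Xs P Q),
  xcm Z s t → xlab Z x s → xlab Z x t →
    xlab Z (xact Z x s) t ∧ xact Z (xact Z x s) t = xact Z (xact Z x t) s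

def XCV : Prop := ∀ (P Q : Type) (Z : Sz P Q) (x : Xv P Q) (s t : Xs P Q),
  xcm Z s t → xlab Z x s → xlab Z (xact Z x s) t → xlab Z x t

def XET : Prop := ∀ (P Q : Type) (Z : Sz P Q) (m : ℕ),
  (∀ x s, xlab Z x s → xeta Z m (xact Z x s) s = - xeta Z m x s) ∧
  (∀ x s t, xcm Z s t → xlab Z x s → xlab Z x t → xeta Z m (xact Z x t) s = xeta Z m x s) ∧
  (∀ x s, xlab Z x s → xbig s → xeta Z m x s = m ∨ xeta Z m x s = -m) ∧
  (∀ x s, xlab Z x s → ¬ xbig s → xeta Z m x s = 1 ∨ xeta Z m x s = -1)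

/-- the type of the pairs of coordinates decides which labels commute -/
def XPA : Prop := ∀ (P Q : Type) (Z : Sz P Q) (x : Xv P Q) (s t : Xs P Q),
  t.1 = s.1 + 1 → xlab Z x s → xlab Z x t →
  ¬ ((∃ q b, x s.1 = Nd.q q b) ∧ ∃ p b, x t.1 = Nd.p p b) → xcm Z s t

/-- labels with prescribed sign exist in every direction -/
def XEX : Prop := ∀ (P Q : Type) (Z : Sz P Q) (x : Xv P Q), gd Z x → ∀ (i : Fin 3) (up : Bool),
  ∃ s : Xs P Q, s.1 = i ∧ xlab Z x s ∧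
    ∀ m : ℕ, 1 ≤ m → (if up then 0 < xeta Z m x s else xeta Z m x s < 0)

/-- links, ascending and descending -/
def XLK : Prop := ∀ (P Q : Type) (Z : Sz P Q) (m : ℕ), 1 ≤ m → ∀ x : Xv P Q, (∃ s, xlab Z x s) →
  Lk (xcm Z) (fun s => xlab Z x s ∧ 0 < xeta Z m x s) ∧
  Lk (xcm Z) (fun s => xlab Z x s ∧ xeta Z m x s < 0)

def XRA : Prop := ∀ (P Q : Type) (Z : Sz P Q) (m : ℕ), 1 ≤ m → ∀ (b : Bool) (x : Xv P Q)
  (s : Xs P Q), xcp Z b x → xlab Z x s → ¬ xbig s → 0 < xeta Z m x s →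
  ∃ a : Xs P Q, xbig a ∧ a.2.2.2 = b ∧ xlab Z x a ∧ 0 < xeta Z m x a ∧ xcm Z s a

def XRB : Prop := ∀ (P Q : Type) (Z : Sz P Q) (m : ℕ), 1 ≤ m → ∀ x : Xv P Q, (∃ s, xlab Z x s) →
  ∃ s, ¬ xbig s ∧ xlab Z x s ∧ 0 < xeta Z m x s ∧
    ∀ a, xbig a → xlab Z x a → 0 < xeta Z m x a → xcm Z s a

def XCP : Prop := ∀ (P Q : Type) (Z : Sz P Q),
  (∀ b x s, xcp Z b x → xlab Z x s → ¬ xbig s → xcp Z b (xact Z x s)) ∧
  (∀ b x s, xcp Z b x → xlab Z x s → xbig s → s.2.2.2 = b → xcp Z b (xact Z x s)) ∧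
  (∀ b, xcp Z b (xo Z)) ∧ xY Z (xo Z)

def XYS : Prop := ∀ (P Q : Type) (Z : Sz P Q),
  (∀ x s, xlab Z x s → ¬ xbig s → (xY Z (xact Z x s) ↔ xY Z x)) ∧
  (∀ x s, xlab Z x s → xsp Z s → (xY Z (xact Z x s) ↔ ¬ xY Z x)) ∧
  (∀ x s, xlab Z x s → xbig s → s.2.2.2 = true → ¬ xsp Z s →
    ¬ xY Z x ∧ ¬ xY Z (xact Z x s))

/-- the distorted path -/
def XVP : Prop := ∀ (P Q : Type) (Z : Sz P Q) (m : ℕ) (M : Mc (Xv P Q) (Xs P Q)),
  M.cm = xcm Z → M.lab = xlab Z → M.act = xact Z → M.eta = xeta Z m → M.m = m → M.big = xbig →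
  ∀ r k : ℕ, r * m = 4 * k →
  (∀ s ∈ (uwk Z Z.q0 k).reverse ++ uwk Z Z.q0' k, ¬ M.big s) ∧
  Rd M.cm ((uwk Z Z.q0 k).reverse ++ uwk Z Z.q0' k) ∧
  M.Sl (-(r * m : ℤ)) 0 (xo Z, 0) ((uwk Z Z.q0 k).reverse ++ uwk Z Z.q0' k) ∧
  (en M.lact (xo Z, 0) ((uwk Z Z.q0 k).reverse)).2 = -(r * m : ℤ) ∧
  (en M.lact (xo Z, 0) ((uwk Z Z.q0 k).reverse ++ uwk Z Z.q0' k)).2 = 0 ∧
  ((uwk Z Z.q0 k).reverse ++ uwk Z Z.q0' k).length = 2 * (r * m)

/-- coordinates along traced words -/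
def XCO : Prop := ∀ (P Q : Type) (Z : Sz P Q),
  (∀ x s, xlab Z x s → gd Z x ∧ gd Z (xact Z x s) ∧
    ((x s.1 = Nd.q s.2.2.1 s.2.2.2 ∧ xact Z x s s.1 = pe Z s.2.1 s.2.2.2) ∨
      (x s.1 = pe Z s.2.1 s.2.2.2 ∧ xact Z x s s.1 = Nd.q s.2.2.1 s.2.2.2)) ∧
    ∀ i, i ≠ s.1 → xact Z x s i = x i) ∧
  (∀ (x : Xv P Q) (u : List (Xs P Q)) (j : Fin 3), (∀ s ∈ u, s.1 ≠ j) →
    en (xact Z) x u j = x j) ∧
  (∀ (p : P) (b : Bool), ∃ c, pe Z p b = Nd.p p c ∧ (p ≠ Z.ps → c = b) ∧ (p = Z.ps → c = false))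

/-- a long reduced word in one direction sees two `P`-names and two `Q`-names -/
def XGA : Prop := ∀ (P Q : Type) (Z : Sz P Q) (x : Xv P Q) (w : List (Xs P Q)) (j : Fin 3),
  Tr (xlab Z) (xact Z) x w → Rd (xcm Z) w → (∀ s ∈ w, s.1 = j) → 5 ≤ w.length →
  (∃ s ∈ w, ∃ t ∈ w, s.2.1 ≠ t.2.1) ∧ ∃ s ∈ w, ∃ t ∈ w, s.2.2.1 ≠ t.2.2.1

/-- repeated letters in words with one `Q`-name in direction `j + 1` and one `P`-name in
direction `j + 2` -/
def XGP : Prop := ∀ (P Q : Type) (Z : Sz P Q) (x : Xv P Q) (w : List (Xs P Q)) (j : Fin 3)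
  (p : P) (q : Q), Tr (xlab Z) (xact Z) x w → Rd (xcm Z) w →
  (∀ s ∈ w, (s.1 = j + 1 ∧ s.2.2.1 = q) ∨ (s.1 = j + 2 ∧ s.2.1 = p)) →
  (∀ (a u b : List (Xs P Q)) (s : Xs P Q), w = a ++ s :: (u ++ s :: b) → s.1 = j + 1 →
    ¬ ∀ t ∈ u, t.1 = j + 2) ∧
  (∀ (a u b : List (Xs P Q)) (t : Xs P Q), w = a ++ t :: (u ++ t :: b) → t.1 = j + 2 →
    en (xact Z) x (a ++ [t]) (j + 2) = Nd.q t.2.2.1 t.2.2.2 → ¬ ∀ s ∈ u, s.1 = j + 1)

/-- a reduced word with one `Q`-name in direction `j + 1` and one `P`-name in direction `j + 2`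
is short -/
def XGB : Prop := ∀ (P Q : Type) (Z : Sz P Q) (x : Xv P Q) (w : List (Xs P Q)) (j : Fin 3)
  (p : P) (q : Q), Tr (xlab Z) (xact Z) x w → Rd (xcm Z) w →
  (∀ s ∈ w, (s.1 = j + 1 ∧ s.2.2.1 = q) ∨ (s.1 = j + 2 ∧ s.2.1 = p)) → w.length ≤ 6

def XGR : Prop := ∀ (P Q : Type) (Z : Sz P Q), Grid (xcm Z) (xlab Z) (xact Z) 6

/-- a sizeable graph -/
def SZB : Prop := Nonempty (Sz (Fin 21) (Fin 21))

def M_XSQ : Prop := XIN → XSQ
def M_XLK : Prop := XCM → XPA → XEX → XLK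
def M_XRA : Prop := XCM → XPA → XEX → XRA
def M_XRB : Prop := XCM → XPA → XEX → XRB
def M_XVP : Prop := TRB → XCM → XIN → SLP → XVP
def M_XGA : Prop := TRB → RDB → XCM → XCO → XGA
def M_XGP : Prop := TRB → RDB → XCM → XCO → XGP
def M_XGB : Prop := TRB → RDB → XCM → XCO → XGP → XGB
def M_XGR : Prop := XCM → XGA → XGB → XGR

end Pool.Agent.H14.PD
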