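import Pool.Agent.H14.PD.Stmts

/-!
Project PD: TRI.
-/

set_option autoImplicit false

namespace Pool.Agent.H14.PD

theorem pd_tri : M_TRI := by
  intro qsw ssq V S M a b G _ q hq y r s t hrs hst hrt lr ls lt nr ns nt hb ha
  obtain ⟨Q1, Q2, -⟩ := qsw _ _ (M.slab a b) G q hq
  have sw : ∀ (v : V × ℤ) (s t : S), M.cm s t → M.lab v.1 s → M.lab v.1 t →
      (a ≤ v.2 ∧ v.2 ≤ b) → (a ≤ (M.lact v s).2 ∧ (M.lact v s).2 ≤ b) →
      (a ≤ (M.lact v t).2 ∧ (M.lact v t).2 ≤ b) →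
      (a ≤ (M.lact (M.lact v s) t).2 ∧ (M.lact (M.lact v s) t).2 ≤ b) →
      q (FreeGroup.of (v, s)) * q (FreeGroup.of (M.lact v s, t)) =
        q (FreeGroup.of (v, t)) * q (FreeGroup.of (M.lact v t, s)) := by
    intro v s t h1 h2 h3 h4 h5 h6 h7
    obtain ⟨u1, u2⟩ := ssq V S M a b v s t h1 h2 h3 h4 h5 h6 h7
    have := (Q2 v s t h1 u1 u2).2.2
    simp only [wd, map_mul, mul_one] at this
    exact this
  have csm := M.cm_symm
  have Sq := M.lf.sq
  have Iv := M.lf.inv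
  have hsq : ∀ (v : V × ℤ) (s t : S), M.cm s t → M.lab v.1 s → M.lab v.1 t →
      M.lab (M.lact v s).1 t ∧ M.lact (M.lact v s) t = M.lact (M.lact v t) s := Sq
  have hiv : ∀ (v : V × ℤ) (s : S), M.lab v.1 s → M.lab (M.lact v s).1 s ∧
      M.lact (M.lact v s) s = v := Iv
  have het : ∀ (v : V × ℤ) (s t : S), M.cm s t → M.lab v.1 s → M.lab v.1 t →
      M.eta (M.lact v t).1 s = M.eta v.1 s := fun v s t => M.eta_sq v.1 s t
  have hh : ∀ (v : V × ℤ) (s : S), (M.lact v s).2 = v.2 + M.eta v.1 s := fun v s => rfl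
  -- corners
  obtain ⟨r_s, e_rs⟩ := hsq y r s hrs lr ls
  obtain ⟨r_t, e_rt⟩ := hsq y r t hrt lr lt
  obtain ⟨s_t, e_st⟩ := hsq y s t hst ls lt
  obtain ⟨s_r, -⟩ := hsq y s r (csm _ _ hrs) ls lr
  obtain ⟨t_r, -⟩ := hsq y t r (csm _ _ hrt) lt lr
  obtain ⟨t_s, -⟩ := hsq y t s (csm _ _ hst) lt ls
  -- at y_r : s, t
  obtain ⟨rs_t, e_rst⟩ := hsq (M.lact y r) s t hst r_s r_t
  obtain ⟨rt_s, -⟩ := hsq (M.lact y r) t s (csm _ _ hst) r_t r_s
  -- at y_s : r, t
  obtain ⟨sr_t, e_srt⟩ := hsq (M.lact y s) r t hrt s_r s_t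
  obtain ⟨st_r, -⟩ := hsq (M.lact y s) t r (csm _ _ hrt) s_t s_r
  -- at y_t : r, s
  obtain ⟨tr_s, e_trs⟩ := hsq (M.lact y t) r s hrs t_r t_s
  -- heights
  have k_r := hh y r
  have k_s := hh y s
  have k_t := hh y t
  have k_rs : (M.lact (M.lact y r) s).2 = y.2 + M.eta y.1 r + M.eta y.1 s := by
    rw [hh, hh, het y s r (csm _ _ hrs) ls lr]
  have k_rt : (M.lact (M.lact y r) t).2 = y.2 + M.eta y.1 r + M.eta y.1 t := by
    rw [hh, hh, het y t r (csm _ _ hrt) lt lr]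
  have k_st : (M.lact (M.lact y s) t).2 = y.2 + M.eta y.1 s + M.eta y.1 t := by
    rw [hh, hh, het y t s (csm _ _ hst) lt ls]
  have k_rst : (M.lact (M.lact (M.lact y r) s) t).2 =
      y.2 + M.eta y.1 r + M.eta y.1 s + M.eta y.1 t := by
    rw [hh, k_rs, het (M.lact y r) t s (csm _ _ hst) r_t r_s, het y t r (csm _ _ hrt) lt lr]
  -- swap 1 at y_rs : r, t
  obtain ⟨i1, i2⟩ := hiv (M.lact y s) r s_r
  rw [← e_rs] at i1 i2
  have s1 := sw (M.lact (M.lact y r) s) r t hrt i1 rs_t (by rw [k_rs]; omega)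
    (by rw [i2, k_s]; omega) (by rw [k_rst]; omega) (by rw [i2, k_st]; omega)
  rw [i2] at s1
  -- swap 2 at y_r : s, t
  have s2 := sw (M.lact y r) s t hst r_s r_t (by rw [k_r]; omega) (by rw [k_rs]; omega)
    (by rw [k_rt]; omega) (by rw [k_rst]; omega)
  -- swap 3 at y_rt : s, r
  obtain ⟨j1, j2⟩ := hiv (M.lact y t) r t_r
  rw [← e_rt] at j1 j2
  have e4 : M.lact (M.lact (M.lact y r) t) s = M.lact (M.lact (M.lact y r) s) t := e_rst.symm
  obtain ⟨l1, l2⟩ := hiv (M.lact (M.lact y s) t) r st_r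
  have e5 : M.lact (M.lact (M.lact y s) t) r = M.lact (M.lact (M.lact y r) s) t := by
    rw [← e_srt, ← e_rs]
  rw [e5] at l1 l2
  have s3 := sw (M.lact (M.lact y r) t) s r (csm _ _ hrs) rt_s j1 (by rw [k_rt]; omega)
    (by rw [e4, k_rst]; omega) (by rw [j2, k_t]; omega) (by rw [e4, l2, k_st]; omega)
  rw [j2, e4] at s3
  -- cancel
  have s4 : q (FreeGroup.of (M.lact y t, s)) * q (FreeGroup.of (M.lact (M.lact y s) t, s)) = 1 := by
    have := Q1 (M.lact y t) s ⟨t_s, by rw [k_t]; omega, by rw [← e_st, k_st]; omega⟩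
    change q (FreeGroup.of (M.lact y t, s)) * q (FreeGroup.of (M.lact (M.lact y t) s, s)) = 1 at this
    rw [← e_st] at this
    exact this
  simp only [Kp, wd, map_mul, mul_one]
  generalize q (FreeGroup.of (M.lact y r, s)) = A at *
  generalize q (FreeGroup.of (M.lact (M.lact y r) s, r)) = B at *
  generalize q (FreeGroup.of (M.lact y s, t)) = C at *
  generalize q (FreeGroup.of (M.lact (M.lact y s) t, s)) = D at *
  generalize q (FreeGroup.of (M.lact (M.lact y r) s, t)) = E at *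
  generalize q (FreeGroup.of (M.lact (M.lact (M.lact y r) s) t, r)) = F at *
  generalize q (FreeGroup.of (M.lact y r, t)) = H at *
  generalize q (FreeGroup.of (M.lact (M.lact y r) t, s)) = I at *
  generalize q (FreeGroup.of (M.lact (M.lact y r) t, r)) = J at *
  generalize q (FreeGroup.of (M.lact y t, s)) = K at *
  calc A * B * (C * D) = A * (B * C) * D := by group
    _ = (A * E) * F * D := by rw [s1]; group
    _ = H * (I * F) * D := by rw [s2]; group
    _ = H * J * (K * D) := by rw [s3]; group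
    _ = H * J := by rw [s4, mul_one]

end Pool.Agent.H14.PD
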