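import Pool.Agent.H14.PD.Stmts

/-!
Project PD: basic facts on words (PRB, TQB, RDB) and traced words (TRB).
-/

set_option autoImplicit false

namespace Pool.Agent.H14.PD

theorem pd_prb : PRB := by
  intro S cm
  have hii : ∀ s, io cm s * io cm s = 1 := by
    intro s
    have h : (FreeGroup.of s * FreeGroup.of s : FreeGroup S) ∈ wrel cm := Or.inl ⟨s, rfl⟩
    have h2 : (PresentedGroup.mk (wrel cm)) (FreeGroup.of s * FreeGroup.of s) = 1 :=
      PresentedGroup.one_of_mem h
    rw [map_mul] at h2
    exact h2
  have hcc : ∀ s t, cm s t → io cm s * io cm t = io cm t * io cm s := by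
    intro s t h
    have h1 : (FreeGroup.of s * FreeGroup.of t * (FreeGroup.of s)⁻¹ * (FreeGroup.of t)⁻¹ :
        FreeGroup S) ∈ wrel cm := Or.inr ⟨s, t, h, rfl⟩
    have h2 : (PresentedGroup.mk (wrel cm))
        (FreeGroup.of s * FreeGroup.of t * (FreeGroup.of s)⁻¹ * (FreeGroup.of t)⁻¹) = 1 :=
      PresentedGroup.one_of_mem h1
    simp only [map_mul, map_inv] at h2
    have h3 : io cm s * io cm t * (io cm s)⁻¹ * (io cm t)⁻¹ = 1 := h2
    rw [mul_inv_eq_one, mul_inv_eq_iff_eq_mul] at h3
    exact h3
  have hcons : ∀ s w, pr cm (s :: w) = io cm s * pr cm w := by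
    intro s w; simp [pr]
  have happ : ∀ u v, pr cm (u ++ v) = pr cm u * pr cm v := by
    intro u v; simp [pr]
  refine ⟨by simp [pr], hcons, happ, hii, hcc, ?_⟩
  intro w
  induction w with
  | nil => simp [pr]
  | cons s w ih =>
    rw [List.reverse_cons, happ, ih, hcons s w, mul_inv_rev]
    congr 1
    have : pr cm [s] = io cm s := by simp [pr]
    rw [this]
    exact eq_inv_of_mul_eq_one_left (hii s)

theorem pd_tqb : TQB := by
  intro S cm hs
  have hsw : ∀ u v, Sw cm u v → Sw cm v u := by
    rintro _ _ ⟨a, b, s, t, h⟩
    exact ⟨a, b, t, s, hs s t h⟩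
  have h1 : ∀ u v, Tq cm u v → Tq cm v u := by
    intro u v h
    induction h with
    | refl => exact Relation.ReflTransGen.refl
    | tail _ hst ih => exact Relation.ReflTransGen.head (hsw _ _ hst) ih
  have h2 : ∀ u v a b, Tq cm u v → Tq cm (a ++ u ++ b) (a ++ v ++ b) := by
    intro u v a b h
    induction h with
    | refl => exact Relation.ReflTransGen.refl
    | tail _ hst ih =>
      refine ih.tail ?_
      obtain ⟨c, d, s, t, h⟩ := hst
      have := Sw.mk (a ++ c) (d ++ b) s t h
      simpa [List.append_assoc] using this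
  have h3 : ∀ u v, Tq cm u v → u.Perm v := by
    intro u v h
    induction h with
    | refl => exact List.Perm.refl _
    | tail _ hst ih =>
      refine ih.trans ?_
      obtain ⟨c, d, s, t, h⟩ := hst
      exact List.Perm.append_left c (List.Perm.swap t s d)
  have h4 : ∀ u v, Tq cm u v → Tq cm u.reverse v.reverse := by
    intro u v h
    induction h with
    | refl => exact Relation.ReflTransGen.refl
    | tail _ hst ih =>
      refine ih.tail ?_
      obtain ⟨c, d, s, t, h⟩ := hst
      have := Sw.mk d.reverse c.reverse t s (hs s t h)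
      simpa [List.append_assoc] using this
  have h5 : ∀ u v, Tq cm u v → pr cm u = pr cm v := by
    intro u v h
    obtain ⟨p1, p2, p3, p4, p5, p6⟩ := pd_prb S cm
    induction h with
    | refl => rfl
    | tail _ hst ih =>
      rw [ih]
      obtain ⟨c, d, s, t, h⟩ := hst
      rw [p3, p3, p2, p2, p2, p2, ← mul_assoc (io cm s), p5 s t h, mul_assoc (io cm t)]
  have h6 : ∀ s u, (∀ t ∈ u, cm s t) → Tq cm (s :: u) (u ++ [s]) := by
    intro s u
    induction u with
    | nil => intro _; exact Relation.ReflTransGen.refl
    | cons t u ih =>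
      intro h
      have a1 : Tq cm (s :: t :: u) (t :: s :: u) :=
        Relation.ReflTransGen.single (Sw.mk [] u s t (h t List.mem_cons_self))
      have a2 := h2 _ _ [t] [] (ih (fun x hx => h x (List.mem_cons_of_mem _ hx)))
      simp only [List.append_nil, List.cons_append, List.nil_append] at a2
      exact a1.trans a2
  refine ⟨h1, h2, h3, h4, h5, h6, ?_⟩
  intro u v
  induction u with
  | nil =>
    intro _
    rw [List.nil_append, List.append_nil]
    exact Relation.ReflTransGen.refl
  | cons s u ih =>
    intro h
    have a1 : Tq cm (s :: (u ++ v)) (s :: (v ++ u)) := by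
      have := h2 _ _ [s] [] (ih (fun x hx => h x (List.mem_cons_of_mem _ hx)))
      simpa using this
    have a2 : Tq cm (s :: v ++ u) (v ++ [s] ++ u) := by
      have := h2 _ _ [] u (h6 s v (h s List.mem_cons_self))
      simpa using this
    have a3 : Tq cm (s :: (v ++ u)) (v ++ s :: u) := by simpa using a2
    exact a1.trans a3

theorem pd_rdb : RDB := by
  intro S cm
  refine ⟨?_, ?_, ?_, ?_⟩
  · intro a b c h a' u b' s hb
    apply h (a ++ a') u (b' ++ c) s
    rw [hb]; simp [List.append_assoc]
  · intro w h a u b s hw
    have : w = b.reverse ++ s :: (u.reverse ++ s :: a.reverse) := by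
      have := congrArg List.reverse hw
      rw [List.reverse_reverse] at this
      rw [this]; simp [List.append_assoc]
    obtain ⟨t, ht, hc⟩ := h _ _ _ _ this
    exact ⟨t, List.mem_reverse.1 ht, hc⟩
  · intro w h
    unfold Rd at h
    push Not at h
    exact h
  · intro w hw a u b s h
    rw [h] at hw
    simp at hw
    omega

theorem pd_trb : TRB := by
  intro Y S lab act
  have h2 : ∀ y u v, en act y (u ++ v) = en act (en act y u) v := by
    intro y u v
    induction u generalizing y with
    | nil => rfl
    | cons s u ih => simp only [List.cons_append, en, ih]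
  have h1 : ∀ y u v, Tr lab act y (u ++ v) ↔ Tr lab act y u ∧ Tr lab act (en act y u) v := by
    intro y u v
    induction u generalizing y with
    | nil => simp [Tr, en]
    | cons s u ih => simp only [List.cons_append, Tr, en, ih, and_assoc]
  refine ⟨h1, h2, ?_, ?_⟩
  · intro y u v
    induction u generalizing y with
    | nil => simp [wd, en]
    | cons s u ih => simp only [List.cons_append, wd, en, ih, mul_assoc]
  · intro hinv y w
    induction w generalizing y with
    | nil => intro _; exact ⟨trivial, rfl⟩
    | cons s w ih =>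
      intro h
      obtain ⟨a1, a2⟩ := ih _ h.2
      simp only [en, List.reverse_cons]
      rw [h1, h2, a2]
      refine ⟨⟨a1, (hinv y s h.1).1, trivial⟩, ?_⟩
      simp only [en]
      exact (hinv y s h.1).2

end Pool.Agent.H14.PD
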